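import Pool.Agent.H7.Div.Point

set_option autoImplicit false

open Finset MeasureTheory Filter Topology
open scoped InnerProductSpace

namespace Pool.Agent.H7.Div

/-- offsets -/
def off (R : ℕ → ℕ) (j : ℕ) : ℕ := ∑ i ∈ range j, R i

lemma off_succ (R : ℕ → ℕ) (j : ℕ) : off R (j + 1) = off R j + R j := sum_range_succ _ _

lemma loc_exists (R : ℕ → ℕ) (hR : ∀ j, 1 ≤ R j) : ∀ n, ∃ p : ℕ × ℕ, p.2 < R p.1 ∧ n = off R p.1 + p.2 := by
  intro n
  induction n with
  | zero => exact ⟨(0, 0), hR 0, by simp [off]⟩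
  | succ n ih =>
    obtain ⟨p, hp1, hp2⟩ := ih
    by_cases h : p.2 + 1 < R p.1
    · exact ⟨(p.1, p.2 + 1), h, by simp only; omega⟩
    · refine ⟨(p.1 + 1, 0), hR _, ?_⟩
      simp only
      rw [off_succ]
      omega

lemma off_mono (R : ℕ → ℕ) {i j : ℕ} (h : i < j) : off R i + R i ≤ off R j := by
  rw [← off_succ]
  induction j, (Nat.succ_le_of_lt h) using Nat.le_induction with
  | base => exact le_rfl
  | succ j hj ih => rw [off_succ R j]; have := ih (by omega); omega

lemma loc_unique (R : ℕ → ℕ) {j k j' k' : ℕ} (hk : k < R j) (hk' : k' < R j')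
    (h : off R j + k = off R j' + k') : j = j' ∧ k = k' := by
  rcases lt_trichotomy j j' with h1 | h1 | h1
  · have := off_mono R h1; omega
  · subst h1; exact ⟨rfl, by omega⟩
  · have := off_mono R h1; omega

lemma le_off (R : ℕ → ℕ) (hR : ∀ j, 1 ≤ R j) (j : ℕ) : j ≤ off R j := by
  induction j with
  | zero => exact Nat.zero_le _
  | succ j ih => rw [off_succ]; have := hR j; omega

/-- orthonormal sets in a separable space are countable -/
lemma orth_countable {w : Set H} (hw : Orthonormal ℝ (Subtype.val : w → H)) : w.Countable := by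
  classical
  have : Fact ((2 : ENNReal) ≠ ⊤) := ⟨by norm_num⟩
  have : SecondCountableTopology H := inferInstance
  have : TopologicalSpace.SeparableSpace H := inferInstance
  rw [orthonormal_subtype_iff_ite] at hw
  have h1 : w.PairwiseDisjoint (fun x => Metric.ball x (1 / 2)) := by
    intro x hx y hy hxy
    rw [Function.onFun, Set.disjoint_left]
    intro z hz hz'
    rw [Metric.mem_ball, dist_comm] at hz
    rw [Metric.mem_ball] at hz'
    have h2 : dist x y < 1 := by
      calc dist x y ≤ dist x z + dist z y := dist_triangle _ _ _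
        _ < 1 := by linarith
    have h3 : ‖x - y‖ ^ 2 = 2 := by
      rw [norm_sub_sq_real, ← real_inner_self_eq_norm_sq, ← real_inner_self_eq_norm_sq, hw x hx x hx,
        hw y hy y hy, hw x hx y hy, if_pos rfl, if_pos rfl, if_neg hxy]
      norm_num
    rw [dist_eq_norm] at h2
    nlinarith [norm_nonneg (x - y)]
  exact h1.countable_of_isOpen (fun _ _ => Metric.isOpen_ball) (fun x _ => ⟨x, Metric.mem_ball_self (by norm_num)⟩)

/-- the final system -/
theorem exists_system : ∃ φ : ℕ → ℝ → ℝ,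
      (∀ n, Measurable (φ n)) ∧
      (∀ n, MemLp (φ n) 2 (volume.restrict (Set.Icc (0:ℝ) 1))) ∧
      (∀ i j, ∫ t in Set.Icc (0:ℝ) 1, φ i t * φ j t = if i = j then (1:ℝ) else 0) ∧
      (∀ g : ℝ → ℝ, MemLp g 2 (volume.restrict (Set.Icc (0:ℝ) 1)) →
        (∀ n, ∫ t in Set.Icc (0:ℝ) 1, g t * φ n t = 0) →
        g =ᵐ[volume.restrict (Set.Icc (0:ℝ) 1)] 0) ∧
      (∀ f : ℝ → ℝ, AnalyticOnNhd ℝ f (Set.Icc (0:ℝ) 1) →
        (∃ x ∈ Set.Icc (0:ℝ) 1, f x ≠ 0) →
        ∀ᵐ t ∂(volume.restrict (Set.Icc (0:ℝ) 1)),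
          ¬ ∃ L : ℝ, Tendsto
            (fun N : ℕ => ∑ n ∈ Finset.range N,
              (∫ s in Set.Icc (0:ℝ) 1, f s * φ n s) * φ n t)
            atTop (𝓝 L)) := by
  classical
  obtain ⟨b, hb⟩ := exists_seq
  set s : Set H := {x | ∃ j k, k < (b j).D ∧ x = v b j k} with hs
  have hinj : ∀ j k j' k', k < (b j).D → k' < (b j').D → v b j k = v b j' k' → j = j' ∧ k = k' := by
    intro j k j' k' hk hk' h
    by_contra hcon
    have h1 := v_inner hb j j' k k' hk hk'
    rw [if_neg hcon, ← h, v_inner hb j j k k hk hk, if_pos ⟨rfl, rfl⟩] at h1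
    exact one_ne_zero h1
  have hso : Orthonormal ℝ (Subtype.val : s → H) := by
    rw [orthonormal_subtype_iff_ite]
    rintro x ⟨j, k, hk, rfl⟩ y ⟨j', k', hk', rfl⟩
    rw [v_inner hb j j' k k' hk hk']
    by_cases h : j = j' ∧ k = k'
    · obtain ⟨rfl, rfl⟩ := h
      rw [if_pos ⟨rfl, rfl⟩, if_pos rfl]
    · rw [if_neg h, if_neg (fun h' => h (hinj j k j' k' hk hk' h'))]
  obtain ⟨w, B, hsw, hBw⟩ := hso.exists_hilbertBasis_extension
  have hwo : Orthonormal ℝ (Subtype.val : w → H) := by rw [← hBw]; exact B.orthonormal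
  obtain ⟨enc, henc⟩ := Set.countable_iff_exists_injOn.1 (orth_countable hwo)
  rw [orthonormal_subtype_iff_ite] at hwo
  -- rows
  set E : ℕ → Prop := fun j => ∃ x, x ∈ w \ s ∧ enc x = j with hE
  set chi : ℕ → H := fun j => if h : E j then h.choose else 0 with hchi
  have chi_spec : ∀ j, E j → chi j ∈ w \ s ∧ enc (chi j) = j := by
    intro j hj
    have : chi j = hj.choose := by rw [hchi]; exact dif_pos hj
    rw [this]; exact hj.choose_spec
  set R : ℕ → ℕ := fun j => (b j).D + if E j then 1 else 0 with hR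
  have hD : ∀ j, 1 ≤ (b j).D := by
    intro j
    have h1 : (d (b j).N) + 1 = 2 ^ (b j).N := d_le _
    have h2 : 0 < (b j).N := by
      have := N_pos (hb j)
      exact_mod_cast this
    have h3 : 2 ≤ 2 ^ (b j).N := by
      calc 2 = 2 ^ 1 := rfl
        _ ≤ 2 ^ (b j).N := Nat.pow_le_pow_right (by norm_num) h2
    unfold Blk.D
    omega
  have hR1 : ∀ j, 1 ≤ R j := fun j => (hD j).trans (Nat.le_add_right _ _)
  have hRD : ∀ j k, k < R j → ¬ k < (b j).D → E j ∧ k = (b j).D := by
    intro j k hk hk'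
    simp only [hR] at hk
    by_cases h : E j
    · rw [if_pos h] at hk; exact ⟨h, by omega⟩
    · rw [if_neg h] at hk; omega
  set V : ℕ → ℕ → H := fun j k => if k < (b j).D then v b j k else chi j with hV
  set P : ℕ → ℕ → ℝ → ℝ := fun j k => if k < (b j).D then (b j).f k else (chi j : ℝ → ℝ) with hP
  have Pmeas : ∀ j k, Measurable (P j k) := by
    intro j k
    simp only [hP]
    split_ifs
    · exact dy_meas (f_dy _ _)
    · exact (Lp.stronglyMeasurable _).measurable
  have PLp : ∀ j k, MemLp (P j k) 2 m01 := by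
    intro j k
    simp only [hP]
    split_ifs
    · exact dy_memLp (f_dy _ _)
    · exact Lp.memLp _
  have PV : ∀ j k, (PLp j k).toLp (P j k) = V j k := by
    intro j k
    by_cases h : k < (b j).D
    · have h1 : P j k = (b j).f k := by simp only [hP]; rw [if_pos h]
      have h2 : V j k = v b j k := by simp only [hV]; rw [if_pos h]
      rw [h2]
      unfold v
      exact MemLp.toLp_congr _ _ (by rw [h1])
    · have h1 : P j k = (chi j : ℝ → ℝ) := by simp only [hP]; rw [if_neg h]
      have h2 : V j k = chi j := by simp only [hV]; rw [if_neg h]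
      rw [h2]
      have h3 : (PLp j k).toLp (P j k) = (Lp.memLp (chi j)).toLp _ := MemLp.toLp_congr _ _ (by rw [h1])
      rw [h3]
      exact Lp.toLp_coeFn _ _
  have Vw : ∀ j k, k < R j → V j k ∈ w := by
    intro j k hk
    by_cases h : k < (b j).D
    · have h2 : V j k = v b j k := by simp only [hV]; rw [if_pos h]
      rw [h2]; exact hsw ⟨j, k, h, rfl⟩
    · have h2 : V j k = chi j := by simp only [hV]; rw [if_neg h]
      rw [h2]; exact (chi_spec j (hRD j k hk h).1).1.1
  have Vinj : ∀ j k j' k', k < R j → k' < R j' → V j k = V j' k' → j = j' ∧ k = k' := by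
    intro j k j' k' hk hk' h
    by_cases h1 : k < (b j).D
    · have e1 : V j k = v b j k := by simp only [hV]; rw [if_pos h1]
      by_cases h2 : k' < (b j').D
      · have e2 : V j' k' = v b j' k' := by simp only [hV]; rw [if_pos h2]
        rw [e1, e2] at h
        exact hinj j k j' k' h1 h2 h
      · have e2 : V j' k' = chi j' := by simp only [hV]; rw [if_neg h2]
        have h3 := (chi_spec j' (hRD j' k' hk' h2).1).1.2
        rw [e1, e2] at h
        exact absurd ⟨j, k, h1, h.symm⟩ h3
    · have e1 : V j k = chi j := by simp only [hV]; rw [if_neg h1]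
      obtain ⟨hEj, hkj⟩ := hRD j k hk h1
      by_cases h2 : k' < (b j').D
      · have e2 : V j' k' = v b j' k' := by simp only [hV]; rw [if_pos h2]
        have h3 := (chi_spec j hEj).1.2
        rw [e1, e2] at h
        exact absurd ⟨j', k', h2, h⟩ h3
      · have e2 : V j' k' = chi j' := by simp only [hV]; rw [if_neg h2]
        obtain ⟨hEj', hkj'⟩ := hRD j' k' hk' h2
        rw [e1, e2] at h
        have h4 := (chi_spec j hEj).2
        rw [h, (chi_spec j' hEj').2] at h4
        subst h4
        exact ⟨rfl, by rw [hkj, hkj']⟩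
  choose loc hloc1 hloc2 using loc_exists R hR1
  have hloc : ∀ j k, k < R j → loc (off R j + k) = (j, k) := by
    intro j k hk
    obtain ⟨h1, h2⟩ := loc_unique R hk (hloc1 (off R j + k)) (hloc2 (off R j + k))
    exact Prod.ext h1.symm h2.symm
  set φ : ℕ → ℝ → ℝ := fun n => P (loc n).1 (loc n).2 with hφ
  refine ⟨φ, fun n => Pmeas _ _, fun n => PLp _ _, ?_, ?_, ?_⟩
  · intro i j
    have h1 : ∫ t in Set.Icc (0:ℝ) 1, φ i t * φ j t = inner ℝ (V (loc i).1 (loc i).2) (V (loc j).1 (loc j).2) := by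
      rw [← PV, ← PV, inner_toLp]
    rw [h1, hwo _ (Vw _ _ (hloc1 i)) _ (Vw _ _ (hloc1 j))]
    by_cases h : i = j
    · subst h; rw [if_pos rfl, if_pos rfl]
    · rw [if_neg h, if_neg]
      intro h2
      obtain ⟨h3, h4⟩ := Vinj _ _ _ _ (hloc1 i) (hloc1 j) h2
      apply h
      rw [hloc2 i, hloc2 j, h3, h4]
  · intro g hg hgo
    have h1 : ∀ j k, k < R j → inner ℝ (hg.toLp g) (V j k) = 0 := by
      intro j k hk
      rw [← PV, inner_toLp]
      have := hgo (off R j + k)
      simp only [hφ] at this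
      rw [hloc j k hk] at this
      exact this
    have h2 : ∀ x ∈ w, inner ℝ (hg.toLp g) x = 0 := by
      intro x hx
      by_cases hxs : x ∈ s
      · obtain ⟨j, k, hk, rfl⟩ := hxs
        have := h1 j k (lt_of_lt_of_le hk (Nat.le_add_right _ _))
        have e1 : V j k = v b j k := by simp only [hV]; rw [if_pos hk]
        rwa [e1] at this
      · have hEj : E (enc x) := ⟨x, ⟨hx, hxs⟩, rfl⟩
        have h3 := h1 (enc x) (b (enc x)).D (by simp only [hR]; rw [if_pos hEj]; omega)
        have e1 : V (enc x) (b (enc x)).D = chi (enc x) := by simp only [hV]; rw [if_neg (lt_irrefl _)]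
        have e2 : chi (enc x) = x := henc (chi_spec _ hEj).1.1 hx (chi_spec _ hEj).2
        rwa [e1, e2] at h3
    have h3 : hg.toLp g = 0 := by
      apply B.repr.injective
      rw [map_zero]
      ext i
      rw [B.repr_apply_apply, hBw, real_inner_comm, h2 _ i.2]
      rfl
    have h4 := hg.coeFn_toLp
    rw [h3] at h4
    exact h4.symm.trans (Lp.coeFn_zero _ _ _)
  · intro f hf hne
    obtain ⟨κ, hκ, hosc⟩ := diverge hb hf hne
    filter_upwards [hosc] with t ht
    rintro ⟨L, hL⟩
    rw [Metric.tendsto_atTop] at hL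
    obtain ⟨J, hJ⟩ := hL (κ / 2) (by positivity)
    obtain ⟨j, hj, n, hn, hbig⟩ := ht J
    have h1 := hJ (off R j) (hj.trans (le_off R hR1 j))
    have h2 := hJ (off R j + n) ((hj.trans (le_off R hR1 j)).trans (Nat.le_add_right _ _))
    rw [sum_range_add] at h2
    have h3 : ∑ x ∈ range n, (∫ s in Set.Icc (0:ℝ) 1, f s * φ (off R j + x) s) * φ (off R j + x) t =
        ∑ k ∈ range n, co b f j k * (b j).f k t := by
      refine sum_congr rfl fun k hk => ?_
      have hkD : k < (b j).D := lt_of_lt_of_le (mem_range.1 hk) hn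
      have e1 : φ (off R j + k) = (b j).f k := by
        simp only [hφ]
        rw [hloc j k (lt_of_lt_of_le hkD (Nat.le_add_right _ _))]
        simp only [hP]
        rw [if_pos hkD]
      rw [e1]; rfl
    rw [h3] at h2
    rw [Real.dist_eq] at h1 h2
    have h4 := abs_sub (∑ x ∈ range (off R j), (∫ s in Set.Icc (0:ℝ) 1, f s * φ x s) * φ x t +
      ∑ k ∈ range n, co b f j k * (b j).f k t - L)
      (∑ x ∈ range (off R j), (∫ s in Set.Icc (0:ℝ) 1, f s * φ x s) * φ x t - L)
    have h5 : (∑ x ∈ range (off R j), (∫ s in Set.Icc (0:ℝ) 1, f s * φ x s) * φ x t +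
      ∑ k ∈ range n, co b f j k * (b j).f k t - L) -
      (∑ x ∈ range (off R j), (∫ s in Set.Icc (0:ℝ) 1, f s * φ x s) * φ x t - L) =
      ∑ k ∈ range n, co b f j k * (b j).f k t := by ring
    rw [h5] at h4
    linarith

end Pool.Agent.H7.Div
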