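import Mathlib

set_option autoImplicit false

open Finset

namespace Pool.Agent.H7.Div

/-- number of nodes of the tree of depth `N` -/
def d : ℕ → ℕ
  | 0 => 0
  | N + 1 => d N + 1 + d N

lemma d_le (N : ℕ) : d N + 1 = 2 ^ N := by
  induction N with
  | zero => rfl
  | succ N ih => rw [pow_succ, ← ih]; simp only [d]; ring

/-- normalized Haar functions of the tree, in right-to-left in-order -/
noncomputable def u : ℕ → ℕ → ℕ → ℝ
  | 0, _, _ => 0
  | N + 1, i, y =>
    if y < 2 ^ N then
      (if i < d N then 0 else if i = d N then 1 else Real.sqrt 2 * u N (i - (d N + 1)) y)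
    else
      (if i < d N then Real.sqrt 2 * u N i (y - 2 ^ N) else if i = d N then -1 else 0)

section
variable (c lam : ℝ)

/-- coefficients, with stopping when the walk leaves `[-lam, lam]` -/
noncomputable def g : ℕ → ℝ → ℕ → ℝ
  | 0, _, _ => 0
  | N + 1, s, i =>
    if lam < |s| then 0
    else if i < d N then g N (s - c) i / Real.sqrt 2
    else if i = d N then c
    else g N (s + c) (i - (d N + 1)) / Real.sqrt 2

/-- the stopped walk -/
noncomputable def Gr : ℕ → ℝ → ℕ → ℝ
  | 0, _, _ => 0
  | N + 1, s, y =>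
    if lam < |s| then 0
    else if y < 2 ^ N then c + Gr N (s + c) y
    else -c + Gr N (s - c) (y - 2 ^ N)

/-- the peak of the rearranged partial sums -/
noncomputable def pk : ℕ → ℝ → ℕ → ℝ
  | 0, _, _ => 0
  | N + 1, s, y =>
    if lam < |s| then 0
    else if y < 2 ^ N then c + pk N (s + c) y
    else pk N (s - c) (y - 2 ^ N)

/-- the walk is not stopped -/
def un : ℕ → ℝ → ℕ → Prop
  | 0, _, _ => True
  | N + 1, s, y => |s| ≤ lam ∧ (if y < 2 ^ N then un N (s + c) y else un N (s - c) (y - 2 ^ N))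

end

lemma sum_pow_succ (N : ℕ) (F : ℕ → ℝ) :
    ∑ y ∈ range (2 ^ (N + 1)), F y = ∑ y ∈ range (2 ^ N), F y + ∑ y ∈ range (2 ^ N), F (y + 2 ^ N) := by
  have : 2 ^ (N + 1) = 2 ^ N + 2 ^ N := by rw [pow_succ]; ring
  rw [this, sum_range_add]
  simp_rw [add_comm (2 ^ N)]

lemma sum_d_succ (N : ℕ) (F : ℕ → ℝ) :
    ∑ i ∈ range (d (N + 1)), F i = ∑ i ∈ range (d N), F i + F (d N) + ∑ i ∈ range (d N), F (i + (d N + 1)) := by
  simp only [d]
  rw [sum_range_add, sum_range_succ]
  simp_rw [add_comm (d N + 1)]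

lemma u_left_right (N i y : ℕ) (hy : y < 2 ^ N) (hi : i < d N) : u (N + 1) i y = 0 := by
  simp [u, hy, hi]
lemma u_left_root (N y : ℕ) (hy : y < 2 ^ N) : u (N + 1) (d N) y = 1 := by
  simp [u, hy]
lemma u_left_left (N i y : ℕ) (hy : y < 2 ^ N) : u (N + 1) (i + (d N + 1)) y = Real.sqrt 2 * u N i y := by
  have h1 : ¬ i + (d N + 1) < d N := by omega
  have h2 : ¬ i + (d N + 1) = d N := by omega
  simp [u, hy, h1, h2]
lemma u_right_right (N i y : ℕ) (hi : i < d N) : u (N + 1) i (y + 2 ^ N) = Real.sqrt 2 * u N i y := by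
  simp [u, hi]
lemma u_right_root (N y : ℕ) : u (N + 1) (d N) (y + 2 ^ N) = -1 := by
  simp [u]
lemma u_right_left (N i y : ℕ) : u (N + 1) (i + (d N + 1)) (y + 2 ^ N) = 0 := by
  have h1 : ¬ i + (d N + 1) < d N := by omega
  have h2 : ¬ i + (d N + 1) = d N := by omega
  simp [u, h1, h2]

/-- case analysis on an index -/
lemma idx (N i : ℕ) (hi : i < d (N + 1)) :
    i < d N ∨ i = d N ∨ ∃ j, j < d N ∧ i = j + (d N + 1) := by
  simp only [d] at hi
  rcases lt_trichotomy i (d N) with h | h | h
  · exact Or.inl h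
  · exact Or.inr (Or.inl h)
  · exact Or.inr (Or.inr ⟨i - (d N + 1), by omega, by omega⟩)

lemma u_mean (N : ℕ) : ∀ i, i < d N → ∑ y ∈ range (2 ^ N), u N i y = 0 := by
  induction N with
  | zero => intro i hi; simp [d] at hi
  | succ N ih =>
    intro i hi
    rw [sum_pow_succ]
    rcases idx N i hi with h | h | ⟨j, hj, rfl⟩
    · rw [sum_congr rfl (fun y hy => u_left_right N i y (mem_range.1 hy) h),
        sum_congr rfl (fun y _ => u_right_right N i y h), ← mul_sum, ih i h]
      simp
    · subst h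
      rw [sum_congr rfl (fun y hy => u_left_root N y (mem_range.1 hy)),
        sum_congr rfl (fun y _ => u_right_root N y)]
      simp
    · rw [sum_congr rfl (fun y hy => u_left_left N j y (mem_range.1 hy)),
        sum_congr rfl (fun y _ => u_right_left N j y), ← mul_sum, ih j hj]
      simp

lemma u_orth (N : ℕ) : ∀ i j, i < d N → j < d N →
    ∑ y ∈ range (2 ^ N), u N i y * u N j y = if i = j then (2 : ℝ) ^ N else 0 := by
  induction N with
  | zero => intro i j hi; simp [d] at hi
  | succ N ih =>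
    have h2 : Real.sqrt 2 * Real.sqrt 2 = 2 := Real.mul_self_sqrt (by norm_num)
    intro i j hi hj
    rw [sum_pow_succ]
    rcases idx N i hi with h | h | ⟨i', hi', rfl⟩ <;> rcases idx N j hj with h' | h' | ⟨j', hj', rfl⟩
    · have e1 : ∑ y ∈ range (2 ^ N), u (N + 1) i y * u (N + 1) j y = 0 :=
        sum_eq_zero fun y hy => by rw [u_left_right N i y (mem_range.1 hy) h, zero_mul]
      have e2 : ∑ y ∈ range (2 ^ N), u (N + 1) i (y + 2 ^ N) * u (N + 1) j (y + 2 ^ N) =
          2 * ∑ y ∈ range (2 ^ N), u N i y * u N j y := by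
        rw [mul_sum]
        refine sum_congr rfl fun y _ => ?_
        rw [u_right_right N i y h, u_right_right N j y h']
        calc _ = (Real.sqrt 2 * Real.sqrt 2) * (u N i y * u N j y) := by ring
          _ = _ := by rw [h2]
      rw [e1, e2, ih i j h h', zero_add]
      split_ifs <;> ring
    · subst h'
      have hne : i ≠ d N := by omega
      rw [if_neg hne]
      have e1 : ∑ y ∈ range (2 ^ N), u (N + 1) i y * u (N + 1) (d N) y = 0 :=
        sum_eq_zero fun y hy => by rw [u_left_right N i y (mem_range.1 hy) h, zero_mul]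
      have e2 : ∑ y ∈ range (2 ^ N), u (N + 1) i (y + 2 ^ N) * u (N + 1) (d N) (y + 2 ^ N) =
          -Real.sqrt 2 * ∑ y ∈ range (2 ^ N), u N i y := by
        rw [mul_sum]
        refine sum_congr rfl fun y _ => ?_
        rw [u_right_right N i y h, u_right_root N y]; ring
      rw [e1, e2, u_mean N i h]; simp
    · have hne : i ≠ j' + (d N + 1) := by omega
      rw [if_neg hne]
      have e1 : ∑ y ∈ range (2 ^ N), u (N + 1) i y * u (N + 1) (j' + (d N + 1)) y = 0 :=
        sum_eq_zero fun y hy => by rw [u_left_right N i y (mem_range.1 hy) h, zero_mul]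
      have e2 : ∑ y ∈ range (2 ^ N), u (N + 1) i (y + 2 ^ N) * u (N + 1) (j' + (d N + 1)) (y + 2 ^ N) = 0 :=
        sum_eq_zero fun y _ => by rw [u_right_left N j' y, mul_zero]
      rw [e1, e2, add_zero]
    · subst h
      have hne : d N ≠ j := by omega
      rw [if_neg hne]
      have e1 : ∑ y ∈ range (2 ^ N), u (N + 1) (d N) y * u (N + 1) j y = 0 :=
        sum_eq_zero fun y hy => by rw [u_left_right N j y (mem_range.1 hy) h', mul_zero]
      have e2 : ∑ y ∈ range (2 ^ N), u (N + 1) (d N) (y + 2 ^ N) * u (N + 1) j (y + 2 ^ N) =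
          -Real.sqrt 2 * ∑ y ∈ range (2 ^ N), u N j y := by
        rw [mul_sum]
        refine sum_congr rfl fun y _ => ?_
        rw [u_right_right N j y h', u_right_root N y]; ring
      rw [e1, e2, u_mean N j h']; simp
    · subst h; subst h'
      have e1 : ∑ y ∈ range (2 ^ N), u (N + 1) (d N) y * u (N + 1) (d N) y = (2 : ℝ) ^ N := by
        rw [sum_congr rfl (fun y hy => by rw [u_left_root N y (mem_range.1 hy)] :
          ∀ y ∈ range (2 ^ N), u (N + 1) (d N) y * u (N + 1) (d N) y = 1 * 1)]
        simp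
      have e2 : ∑ y ∈ range (2 ^ N), u (N + 1) (d N) (y + 2 ^ N) * u (N + 1) (d N) (y + 2 ^ N) = (2 : ℝ) ^ N := by
        simp_rw [u_right_root N]
        simp
      rw [e1, e2, if_pos rfl]; ring
    · subst h
      have hne : d N ≠ j' + (d N + 1) := by omega
      rw [if_neg hne]
      have e1 : ∑ y ∈ range (2 ^ N), u (N + 1) (d N) y * u (N + 1) (j' + (d N + 1)) y =
          Real.sqrt 2 * ∑ y ∈ range (2 ^ N), u N j' y := by
        rw [mul_sum]
        refine sum_congr rfl fun y hy => ?_
        rw [u_left_root N y (mem_range.1 hy), u_left_left N j' y (mem_range.1 hy), one_mul]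
      have e2 : ∑ y ∈ range (2 ^ N), u (N + 1) (d N) (y + 2 ^ N) * u (N + 1) (j' + (d N + 1)) (y + 2 ^ N) = 0 :=
        sum_eq_zero fun y _ => by rw [u_right_left N j' y, mul_zero]
      rw [e1, e2, u_mean N j' hj']; simp
    · have hne : i' + (d N + 1) ≠ j := by omega
      rw [if_neg hne]
      have e1 : ∑ y ∈ range (2 ^ N), u (N + 1) (i' + (d N + 1)) y * u (N + 1) j y = 0 :=
        sum_eq_zero fun y hy => by rw [u_left_right N j y (mem_range.1 hy) h', mul_zero]
      have e2 : ∑ y ∈ range (2 ^ N), u (N + 1) (i' + (d N + 1)) (y + 2 ^ N) * u (N + 1) j (y + 2 ^ N) = 0 :=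
        sum_eq_zero fun y _ => by rw [u_right_left N i' y, zero_mul]
      rw [e1, e2, add_zero]
    · subst h'
      have hne : i' + (d N + 1) ≠ d N := by omega
      rw [if_neg hne]
      have e1 : ∑ y ∈ range (2 ^ N), u (N + 1) (i' + (d N + 1)) y * u (N + 1) (d N) y =
          Real.sqrt 2 * ∑ y ∈ range (2 ^ N), u N i' y := by
        rw [mul_sum]
        refine sum_congr rfl fun y hy => ?_
        rw [u_left_root N y (mem_range.1 hy), u_left_left N i' y (mem_range.1 hy), mul_one]
      have e2 : ∑ y ∈ range (2 ^ N), u (N + 1) (i' + (d N + 1)) (y + 2 ^ N) * u (N + 1) (d N) (y + 2 ^ N) = 0 :=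
        sum_eq_zero fun y _ => by rw [u_right_left N i' y, zero_mul]
      rw [e1, e2, u_mean N i' hi']; simp
    · have e1 : ∑ y ∈ range (2 ^ N), u (N + 1) (i' + (d N + 1)) y * u (N + 1) (j' + (d N + 1)) y =
          2 * ∑ y ∈ range (2 ^ N), u N i' y * u N j' y := by
        rw [mul_sum]
        refine sum_congr rfl fun y hy => ?_
        rw [u_left_left N i' y (mem_range.1 hy), u_left_left N j' y (mem_range.1 hy)]
        calc _ = (Real.sqrt 2 * Real.sqrt 2) * (u N i' y * u N j' y) := by ring
          _ = _ := by rw [h2]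
      have e2 : ∑ y ∈ range (2 ^ N), u (N + 1) (i' + (d N + 1)) (y + 2 ^ N) * u (N + 1) (j' + (d N + 1)) (y + 2 ^ N) = 0 :=
        sum_eq_zero fun y _ => by rw [u_right_left N i' y, zero_mul]
      rw [e1, e2, ih i' j' hi' hj', add_zero]
      by_cases hij : i' = j'
      · rw [if_pos hij, if_pos (by omega)]; ring
      · rw [if_neg hij, if_neg (by omega)]; ring

lemma u_bound (N : ℕ) : ∀ i y, |u N i y| ≤ 2 ^ N := by
  have h2 : Real.sqrt 2 ≤ 2 := by
    rw [Real.sqrt_le_left (by norm_num)]; norm_num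
  have h0 : 0 ≤ Real.sqrt 2 := Real.sqrt_nonneg 2
  induction N with
  | zero => intro i y; simp [u]
  | succ N ih =>
    intro i y
    have h1 : (1 : ℝ) ≤ 2 ^ (N + 1) := one_le_pow₀ (by norm_num)
    have h3 : ∀ z : ℝ, |z| ≤ 2 ^ N → |Real.sqrt 2 * z| ≤ 2 ^ (N + 1) := by
      intro z hz
      rw [abs_mul, abs_of_nonneg h0, pow_succ, mul_comm]
      exact mul_le_mul hz h2 h0 (by positivity)
    simp only [u]
    split_ifs
    · simp
    · simpa using h1
    · exact h3 _ (ih _ _)
    · exact h3 _ (ih _ _)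
    · simpa using h1
    · simp

section
variable {c lam : ℝ}

lemma g_stop {N : ℕ} {s : ℝ} (h : lam < |s|) (i : ℕ) : g c lam N s i = 0 := by
  cases N with
  | zero => simp [g]
  | succ N => simp [g, h]

lemma g_right {N i : ℕ} {s : ℝ} (h : ¬ lam < |s|) (hi : i < d N) :
    g c lam (N + 1) s i = g c lam N (s - c) i / Real.sqrt 2 := by
  simp [g, h, hi]
lemma g_root {N : ℕ} {s : ℝ} (h : ¬ lam < |s|) : g c lam (N + 1) s (d N) = c := by
  simp [g, h]
lemma g_left {N i : ℕ} {s : ℝ} (h : ¬ lam < |s|) :
    g c lam (N + 1) s (i + (d N + 1)) = g c lam N (s + c) i / Real.sqrt 2 := by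
  have h1 : ¬ i + (d N + 1) < d N := by omega
  have h2 : ¬ i + (d N + 1) = d N := by omega
  simp [g, h, h1, h2]

lemma div_sqrt_mul (a b : ℝ) : a / Real.sqrt 2 * (Real.sqrt 2 * b) = a * b := by
  have : Real.sqrt 2 ≠ 0 := (Real.sqrt_pos.2 (by norm_num)).ne'
  field_simp

/-- the total sum is the stopped walk -/
lemma full_sum (N : ℕ) : ∀ s y, y < 2 ^ N →
    ∑ i ∈ range (d N), g c lam N s i * u N i y = Gr c lam N s y := by
  induction N with
  | zero => intro s y _; simp [d, Gr]
  | succ N ih =>
    intro s y hy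
    by_cases h : lam < |s|
    · rw [sum_eq_zero fun i _ => by rw [g_stop h i, zero_mul]]
      simp [Gr, h]
    rw [sum_d_succ]
    by_cases hyl : y < 2 ^ N
    · rw [sum_eq_zero fun i hi => by rw [u_left_right N i y hyl (mem_range.1 hi), mul_zero],
        g_root h, u_left_root N y hyl]
      have : ∑ i ∈ range (d N), g c lam (N + 1) s (i + (d N + 1)) * u (N + 1) (i + (d N + 1)) y =
          ∑ i ∈ range (d N), g c lam N (s + c) i * u N i y :=
        sum_congr rfl fun i _ => by rw [g_left h, u_left_left N i y hyl, div_sqrt_mul]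
      rw [this, ih (s + c) y hyl]
      simp [Gr, h, hyl]
    · obtain ⟨z, rfl⟩ : ∃ z, y = z + 2 ^ N := ⟨y - 2 ^ N, by omega⟩
      have hz : z < 2 ^ N := by rw [pow_succ] at hy; omega
      have e1 : ∑ i ∈ range (d N), g c lam (N + 1) s i * u (N + 1) i (z + 2 ^ N) =
          ∑ i ∈ range (d N), g c lam N (s - c) i * u N i z :=
        sum_congr rfl fun i hi => by
          rw [g_right h (mem_range.1 hi), u_right_right N i z (mem_range.1 hi), div_sqrt_mul]
      have e2 : ∑ i ∈ range (d N), g c lam (N + 1) s (i + (d N + 1)) * u (N + 1) (i + (d N + 1)) (z + 2 ^ N) = 0 :=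
        sum_eq_zero fun i _ => by rw [u_right_left N i z, mul_zero]
      rw [e1, e2, g_root h, u_right_root N z, ih (s - c) z hz]
      simp [Gr, h]
      ring

/-- the peak is attained by a partial sum -/
lemma peak_sum (N : ℕ) : ∀ s y, y < 2 ^ N →
    ∃ m ≤ d N, ∑ i ∈ range m, g c lam N s i * u N i y = pk c lam N s y := by
  induction N with
  | zero => intro s y _; exact ⟨0, le_rfl, by simp [pk]⟩
  | succ N ih =>
    intro s y hy
    by_cases h : lam < |s|
    · exact ⟨0, Nat.zero_le _, by simp [pk, h]⟩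
    by_cases hyl : y < 2 ^ N
    · obtain ⟨m, hm, hs⟩ := ih (s + c) y hyl
      refine ⟨d N + 1 + m, by simp only [d]; omega, ?_⟩
      rw [sum_range_add, sum_range_succ,
        sum_eq_zero fun i hi => by rw [u_left_right N i y hyl (mem_range.1 hi), mul_zero],
        g_root h, u_left_root N y hyl]
      have : ∑ i ∈ range m, g c lam (N + 1) s (d N + 1 + i) * u (N + 1) (d N + 1 + i) y =
          ∑ i ∈ range m, g c lam N (s + c) i * u N i y :=
        sum_congr rfl fun i _ => by
          rw [add_comm (d N + 1) i, g_left h, u_left_left N i y hyl, div_sqrt_mul]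
      rw [this, hs]
      simp [pk, h, hyl]
    · obtain ⟨z, rfl⟩ : ∃ z, y = z + 2 ^ N := ⟨y - 2 ^ N, by omega⟩
      have hz : z < 2 ^ N := by rw [pow_succ] at hy; omega
      obtain ⟨m, hm, hs⟩ := ih (s - c) z hz
      refine ⟨m, by simp only [d]; omega, ?_⟩
      have e1 : ∑ i ∈ range m, g c lam (N + 1) s i * u (N + 1) i (z + 2 ^ N) =
          ∑ i ∈ range m, g c lam N (s - c) i * u N i z :=
        sum_congr rfl fun i hi => by
          have hi' : i < d N := lt_of_lt_of_le (mem_range.1 hi) hm
          rw [g_right h hi', u_right_right N i z hi', div_sqrt_mul]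
      rw [e1, hs]
      simp [pk, h]

lemma walk_bound (hc : 0 ≤ c) (N : ℕ) : ∀ s y, |s| ≤ lam + c → |s + Gr c lam N s y| ≤ lam + c := by
  induction N with
  | zero => intro s y h; simpa [Gr] using h
  | succ N ih =>
    intro s y h
    by_cases hs : lam < |s|
    · simpa [Gr, hs] using h
    · have hs' := not_lt.1 hs
      have h1 : |s + c| ≤ lam + c := (abs_add_le _ _).trans (by rw [abs_of_nonneg hc]; linarith)
      have h2 : |s - c| ≤ lam + c := (abs_sub _ _).trans (by rw [abs_of_nonneg hc]; linarith)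
      by_cases hy : y < 2 ^ N
      · have := ih (s + c) y h1
        simp only [Gr, hs, hy, if_true, if_false]
        rwa [← add_assoc]
      · have := ih (s - c) (y - 2 ^ N) h2
        simp only [Gr, hs, hy, if_false]
        have e : s + (-c + Gr c lam N (s - c) (y - 2 ^ N)) = s - c + Gr c lam N (s - c) (y - 2 ^ N) := by ring
        rwa [e]

lemma un_peak (N : ℕ) : ∀ s y, un c lam N s y → pk c lam N s y = (Gr c lam N s y + c * N) / 2 := by
  induction N with
  | zero => intro s y _; simp [pk, Gr]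
  | succ N ih =>
    intro s y h
    obtain ⟨h1, h2⟩ := h
    have hs : ¬ lam < |s| := not_lt.2 h1
    by_cases hy : y < 2 ^ N
    · simp only [hy, if_true] at h2
      simp only [pk, Gr, hs, hy, if_true, if_false]
      rw [ih _ _ h2]; push_cast; ring
    · simp only [hy, if_false] at h2
      simp only [pk, Gr, hs, hy, if_false]
      rw [ih _ _ h2]; push_cast; ring

lemma not_un (N : ℕ) : ∀ s y, ¬ un c lam N s y → lam < |s + Gr c lam N s y| := by
  induction N with
  | zero => intro s y h; exact absurd trivial h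
  | succ N ih =>
    intro s y h
    by_cases hs : lam < |s|
    · simpa [Gr, hs] using hs
    · have hs' := not_lt.1 hs
      by_cases hy : y < 2 ^ N
      · have h1 : ¬ un c lam N (s + c) y := by
          intro h2; apply h
          refine ⟨hs', ?_⟩
          simpa only [hy, if_true] using h2
        have := ih _ _ h1
        simp only [Gr, hs, hy, if_true, if_false]
        rwa [← add_assoc]
      · have h1 : ¬ un c lam N (s - c) (y - 2 ^ N) := by
          intro h2; apply h
          refine ⟨hs', ?_⟩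
          simpa only [hy, if_false] using h2
        have := ih _ _ h1
        simp only [Gr, hs, hy, if_false]
        have e : s + (-c + Gr c lam N (s - c) (y - 2 ^ N)) = s - c + Gr c lam N (s - c) (y - 2 ^ N) := by ring
        rwa [e]

lemma g_sq (N : ℕ) : ∀ s, ∑ i ∈ range (d N), g c lam N s i ^ 2 ≤ c ^ 2 * N := by
  induction N with
  | zero => intro s; simp [d]
  | succ N ih =>
    intro s
    by_cases h : lam < |s|
    · rw [sum_eq_zero fun i _ => by rw [g_stop h i]; ring]
      positivity
    rw [sum_d_succ, g_root h]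
    have e1 : ∑ i ∈ range (d N), g c lam (N + 1) s i ^ 2 = (∑ i ∈ range (d N), g c lam N (s - c) i ^ 2) / 2 := by
      rw [sum_div]
      refine sum_congr rfl fun i hi => ?_
      rw [g_right h (mem_range.1 hi), div_pow, Real.sq_sqrt (by norm_num)]
    have e2 : ∑ i ∈ range (d N), g c lam (N + 1) s (i + (d N + 1)) ^ 2 = (∑ i ∈ range (d N), g c lam N (s + c) i ^ 2) / 2 := by
      rw [sum_div]
      refine sum_congr rfl fun i _ => ?_
      rw [g_left h, div_pow, Real.sq_sqrt (by norm_num)]
    rw [e1, e2]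
    have h1 := ih (s - c)
    have h2 := ih (s + c)
    push_cast
    linarith

/-- energy of the walk -/
lemma walk_sq (N : ℕ) (s : ℝ) : ∑ y ∈ range (2 ^ N), Gr c lam N s y ^ 2 ≤ 2 ^ N * (c ^ 2 * N) := by
  have h1 : ∑ y ∈ range (2 ^ N), Gr c lam N s y ^ 2 = 2 ^ N * ∑ i ∈ range (d N), g c lam N s i ^ 2 := by
    calc ∑ y ∈ range (2 ^ N), Gr c lam N s y ^ 2
        = ∑ y ∈ range (2 ^ N), ∑ i ∈ range (d N), ∑ j ∈ range (d N),
            (g c lam N s i * u N i y) * (g c lam N s j * u N j y) := by
          refine sum_congr rfl fun y hy => ?_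
          rw [← full_sum N s y (mem_range.1 hy), sq, sum_mul_sum]
      _ = ∑ i ∈ range (d N), ∑ j ∈ range (d N), ∑ y ∈ range (2 ^ N),
            (g c lam N s i * u N i y) * (g c lam N s j * u N j y) := by
          rw [sum_comm]
          refine sum_congr rfl fun i _ => ?_
          rw [sum_comm]
      _ = ∑ i ∈ range (d N), ∑ j ∈ range (d N),
            (if i = j then g c lam N s i ^ 2 * 2 ^ N else 0) := by
          refine sum_congr rfl fun i hi => sum_congr rfl fun j hj => ?_
          have e : ∀ y, (g c lam N s i * u N i y) * (g c lam N s j * u N j y) =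
            (g c lam N s i * g c lam N s j) * (u N i y * u N j y) := fun y => by ring
          simp_rw [e]
          rw [← mul_sum, u_orth N i j (mem_range.1 hi) (mem_range.1 hj)]
          split_ifs with hij
          · subst hij; ring
          · simp
      _ = ∑ i ∈ range (d N), g c lam N s i ^ 2 * 2 ^ N := by
          refine sum_congr rfl fun i hi => ?_
          rw [sum_ite_eq, if_pos hi]
      _ = _ := by rw [← sum_mul, mul_comm]
  rw [h1]
  exact mul_le_mul_of_nonneg_left (g_sq N s) (by positivity)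

/-- coefficients as inner products -/
lemma g_inner (N : ℕ) (s : ℝ) (i : ℕ) (hi : i < d N) :
    ∑ y ∈ range (2 ^ N), u N i y * Gr c lam N s y = 2 ^ N * g c lam N s i := by
  calc ∑ y ∈ range (2 ^ N), u N i y * Gr c lam N s y
      = ∑ y ∈ range (2 ^ N), ∑ j ∈ range (d N), g c lam N s j * (u N i y * u N j y) := by
        refine sum_congr rfl fun y hy => ?_
        rw [← full_sum N s y (mem_range.1 hy), mul_sum]
        exact sum_congr rfl fun j _ => by ring
    _ = ∑ j ∈ range (d N), g c lam N s j * ∑ y ∈ range (2 ^ N), u N i y * u N j y := by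
        rw [sum_comm]
        exact sum_congr rfl fun j _ => by rw [mul_sum]
    _ = ∑ j ∈ range (d N), (if i = j then g c lam N s j * 2 ^ N else 0) := by
        refine sum_congr rfl fun j hj => ?_
        rw [u_orth N i j hi (mem_range.1 hj)]
        split_ifs <;> simp
    _ = _ := by rw [sum_ite_eq, if_pos (mem_range.2 hi), mul_comm]

open Classical in
/-- few walks are stopped -/
lemma stopped_card (hlam : 0 < lam) (N : ℕ) :
    (((range (2 ^ N)).filter fun y => ¬ un c lam N 0 y).card : ℝ) * lam ^ 2 ≤ 2 ^ N * (c ^ 2 * N) := by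
  refine le_trans ?_ (walk_sq (c := c) (lam := lam) N 0)
  calc (((range (2 ^ N)).filter fun y => ¬ un c lam N 0 y).card : ℝ) * lam ^ 2
      = ∑ _y ∈ (range (2 ^ N)).filter fun y => ¬ un c lam N 0 y, lam ^ 2 := by
        rw [sum_const, nsmul_eq_mul]
    _ ≤ ∑ y ∈ (range (2 ^ N)).filter fun y => ¬ un c lam N 0 y, Gr c lam N 0 y ^ 2 := by
        refine sum_le_sum fun y hy => ?_
        have h1 := not_un N 0 y (mem_filter.1 hy).2
        rw [zero_add] at h1
        rw [← sq_abs (Gr c lam N 0 y)]
        exact pow_le_pow_left₀ hlam.le h1.le 2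
    _ ≤ _ := sum_le_sum_of_subset_of_nonneg (filter_subset _ _) fun y _ _ => sq_nonneg _

end

end Pool.Agent.H7.Div
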