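import Pool.Agent.H7.Div.Orth

set_option autoImplicit false

open Finset MeasureTheory Filter Topology
open scoped InnerProductSpace

namespace Pool.Agent.H7.Div

/-- the Hilbert space `L²[0,1]` -/
abbrev H : Type := Lp ℝ 2 m01

lemma inner_toLp {F G : ℝ → ℝ} (hF : MemLp F 2 m01) (hG : MemLp G 2 m01) :
    inner ℝ (hF.toLp F) (hG.toLp G) = ∫ t in Set.Icc (0 : ℝ) 1, F t * G t := by
  rw [L2.inner_def]
  apply integral_congr_ae
  filter_upwards [hF.coeFn_toLp, hG.coeFn_toLp] with t h1 h2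
  rw [h1, h2]
  simp [mul_comm]

lemma ae_lt_one : ∀ᵐ t ∂m01, 0 ≤ t ∧ t < 1 := by
  rw [ae_restrict_iff' measurableSet_Icc]
  have hne : ∀ᵐ t ∂(volume : Measure ℝ), t ≠ 1 := by rw [ae_iff]; simp
  filter_upwards [hne] with t ht hmem
  exact ⟨hmem.1, lt_of_le_of_ne hmem.2 ht⟩

lemma int_bound {F : ℝ → ℝ} {C : ℝ} (h : ∀ t, 0 ≤ t → t < 1 → |F t| ≤ C) :
    |∫ t in Set.Icc (0 : ℝ) 1, F t| ≤ C := by
  have h1 : ∀ᵐ t ∂m01, ‖F t‖ ≤ C := by
    filter_upwards [ae_lt_one] with t ht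
    exact h t ht.1 ht.2
  have := norm_integral_le_of_norm_le_const h1
  simpa using this

/-- step approximation by the values at the left end points -/
noncomputable def sa (f : ℝ → ℝ) (n : ℕ) : ℝ → ℝ := st n (fun x => f (x / 2 ^ n))

lemma sa_close {f : ℝ → ℝ} {m : ℝ} (hm : 0 ≤ m)
    (hf : ∀ s ∈ Set.Icc (0 : ℝ) 1, ∀ t ∈ Set.Icc (0 : ℝ) 1, |f s - f t| ≤ m * |s - t|) (n : ℕ) {t : ℝ}
    (h0 : 0 ≤ t) (h1 : t < 1) : |f t - sa f n t| ≤ m / 2 ^ n := by
  unfold sa st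
  have h2 : (0 : ℝ) < 2 ^ n := by positivity
  have h3 : 0 ≤ (2 : ℝ) ^ n * t := by positivity
  have h4 := Nat.floor_le h3
  have h5 := Nat.lt_floor_add_one ((2 : ℝ) ^ n * t)
  set k := ⌊(2 : ℝ) ^ n * t⌋₊
  have h6 : (k : ℝ) / 2 ^ n ≤ t := by rw [div_le_iff₀ h2]; linarith
  have h7 : t - (k : ℝ) / 2 ^ n ≤ 1 / 2 ^ n := by
    rw [sub_le_iff_le_add, ← add_div, le_div_iff₀ h2]; linarith
  have h8 : 0 ≤ (k : ℝ) / 2 ^ n := by positivity
  refine (hf t ⟨h0, h1.le⟩ _ ⟨h8, by linarith⟩).trans ?_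
  rw [abs_of_nonneg (by linarith)]
  calc m * (t - k / 2 ^ n) ≤ m * (1 / 2 ^ n) := mul_le_mul_of_nonneg_left h7 hm
    _ = m / 2 ^ n := by ring

section

variable {b : ℕ → Blk} (hb : ∀ j, Spec j b (b j)) {f : ℝ → ℝ} (hf2 : MemLp f 2 m01) {m : ℝ}
  (hm : 0 ≤ m) (hf : ∀ s ∈ Set.Icc (0 : ℝ) 1, ∀ t ∈ Set.Icc (0 : ℝ) 1, |f s - f t| ≤ m * |s - t|)

/-- coefficients -/
noncomputable def co (b : ℕ → Blk) (f : ℝ → ℝ) (j k : ℕ) : ℝ := ∫ t in Set.Icc (0 : ℝ) 1, f t * (b j).f k t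
/-- test coefficient -/
noncomputable def al (b : ℕ → Blk) (f : ℝ → ℝ) (j : ℕ) : ℝ := ∫ t in Set.Icc (0 : ℝ) 1, f t * resid b j t
/-- error scale -/
noncomputable def de (b : ℕ → Blk) (j : ℕ) : ℝ := (1 / 2) ^ (2 * (b j).l + 2 * j + 2)
/-- error of the coefficients -/
noncomputable def et (b : ℕ → Blk) (j : ℕ) : ℝ := 2 ^ ((b j).N + 1 + (b j).K) / 2 ^ (b j).L

include hb in
lemma et_de (j : ℕ) : et b j * (2 ^ (b j).N * (2 ^ (b j).N * 2)) = de b j := by
  unfold et de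
  rw [(hb j).hL, one_div_pow]
  have : (2 : ℝ) ^ (2 * (b j).l + 2 * j + 3 * (b j).N + (b j).K + 4) =
      2 ^ ((b j).N + 1 + (b j).K) * (2 ^ (b j).N * (2 ^ (b j).N * 2)) * 2 ^ (2 * (b j).l + 2 * j + 2) := by
    rw [← pow_succ, ← pow_add, ← pow_add, ← pow_add]
    congr 1
    ring
  rw [this]
  field_simp

lemma et_pos (b : ℕ → Blk) (j : ℕ) : 0 < et b j := by unfold et; positivity
lemma de_pos (b : ℕ → Blk) (j : ℕ) : 0 < de b j := by unfold de; positivity

include hb hf2 hm hf in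
lemma co_close (j k : ℕ) (hk : k < (b j).D) :
    |co b f j k - al b f j * (b j).cf k| ≤ m * et b j := by
  set L := (b j).L with hL
  have hsa : dy L (sa f L) := ⟨_, rfl⟩
  have hψ : dy (b j).sc ((b j).f k) := f_dy _ _
  have hres : dy (b j).l (resid b j) := resid_dy hb j
  have i1 : IntegrableOn (fun t => f t * (b j).f k t) (Set.Icc 0 1) := MemLp.integrable_mul hf2 (dy_memLp hψ)
  have i2 : IntegrableOn (fun t => sa f L t * (b j).f k t) (Set.Icc 0 1) :=
    MemLp.integrable_mul (dy_memLp hsa) (dy_memLp hψ)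
  have i3 : IntegrableOn (fun t => f t * resid b j t) (Set.Icc 0 1) := MemLp.integrable_mul hf2 (dy_memLp hres)
  have i4 : IntegrableOn (fun t => sa f L t * resid b j t) (Set.Icc 0 1) :=
    MemLp.integrable_mul (dy_memLp hsa) (dy_memLp hres)
  have e1 : co b f j k - al b f j * (b j).cf k =
      (∫ t in Set.Icc (0 : ℝ) 1, (f t - sa f L t) * (b j).f k t) -
        (∫ t in Set.Icc (0 : ℝ) 1, (f t - sa f L t) * resid b j t) * (b j).cf k := by
    have e2 := f_coarse (hb j) hsa k hk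
    have e3 : ∫ t in Set.Icc (0 : ℝ) 1, (f t - sa f L t) * (b j).f k t =
        (∫ t in Set.Icc (0 : ℝ) 1, f t * (b j).f k t) - ∫ t in Set.Icc (0 : ℝ) 1, sa f L t * (b j).f k t := by
      rw [← integral_sub i1 i2]; congr 1; funext t; ring
    have e4 : ∫ t in Set.Icc (0 : ℝ) 1, (f t - sa f L t) * resid b j t =
        (∫ t in Set.Icc (0 : ℝ) 1, f t * resid b j t) - ∫ t in Set.Icc (0 : ℝ) 1, sa f L t * resid b j t := by
      rw [← integral_sub i3 i4]; congr 1; funext t; ring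
    rw [e3, e4, e2]
    unfold co al
    ring
  have hc := fun t h0 h1 => sa_close hm hf L (t := t) h0 h1
  have hm2 : 0 ≤ m / 2 ^ L := by positivity
  have b1 : |∫ t in Set.Icc (0 : ℝ) 1, (f t - sa f L t) * (b j).f k t| ≤ m / 2 ^ L * (2 ^ (b j).N * 2) := by
    apply int_bound
    intro t h0 h1
    rw [abs_mul]
    exact mul_le_mul (hc t h0 h1) (f_abs (hb j) k h1) (abs_nonneg _) hm2
  have b2 : |∫ t in Set.Icc (0 : ℝ) 1, (f t - sa f L t) * resid b j t| ≤ m / 2 ^ L * (b j).K := by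
    apply int_bound
    intro t h0 h1
    rw [abs_mul]
    refine mul_le_mul (hc t h0 h1) ?_ (abs_nonneg _) hm2
    rw [← (hb j).hres]
    exact (hb j).hθ _ (floor_lt h1)
  have b3 := cf_le (hb j) k hk
  rw [e1]
  calc _ ≤ m / 2 ^ L * (2 ^ (b j).N * 2) + m / 2 ^ L * (b j).K * 1 := by
        refine (abs_sub _ _).trans (add_le_add b1 ?_)
        rw [abs_mul]
        exact mul_le_mul b2 b3 (abs_nonneg _) (by positivity)
    _ = m / 2 ^ L * (2 ^ ((b j).N + 1) + (b j).K) := by rw [pow_succ]; ring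
    _ ≤ m / 2 ^ L * 2 ^ ((b j).N + 1 + (b j).K) := by
        refine mul_le_mul_of_nonneg_left ?_ hm2
        have h1 : (1 : ℝ) ≤ 2 ^ ((b j).N + 1) := one_le_pow₀ (by norm_num)
        have h2 : (1 : ℝ) + (b j).K ≤ 2 ^ (b j).K := by
          have := Nat.lt_two_pow_self (n := (b j).K)
          have h3 : (b j).K + 1 ≤ 2 ^ (b j).K := this
          have : (((b j).K + 1 : ℕ) : ℝ) ≤ ((2 ^ (b j).K : ℕ) : ℝ) := by exact_mod_cast h3
          push_cast at this
          linarith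
        rw [pow_add (2 : ℝ) ((b j).N + 1) ((b j).K)]
        have h4 : (0 : ℝ) ≤ (b j).K := Nat.cast_nonneg _
        nlinarith
    _ = m * et b j := by unfold et; rw [← hL]; ring

lemma D_le (N : ℕ) : (d N : ℝ) ≤ 2 ^ N := by
  have h := d_le N
  have : ((d N + 1 : ℕ) : ℝ) = ((2 ^ N : ℕ) : ℝ) := by rw [h]
  push_cast at this
  linarith

include hb in
lemma et_small (j : ℕ) : (2 : ℝ) ^ (b j).N * et b j ≤ de b j := by
  rw [← et_de hb j]
  have h1 : (1 : ℝ) ≤ 2 ^ (b j).N := one_le_pow₀ (by norm_num)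
  have h2 := et_pos b j
  have h3 : (0 : ℝ) < 2 ^ (b j).N * et b j := by positivity
  nlinarith

include hb hf2 hm hf in
/-- energy of `f` in the block -/
lemma energy (j : ℕ) : ∑ k ∈ range (b j).D, co b f j k ^ 2 ≤
    2 * al b f j ^ 2 * (1 / 4) ^ (j + 2) + 2 * (m * de b j) ^ 2 := by
  have h1 : ∀ k ∈ range (b j).D, co b f j k ^ 2 ≤ 2 * al b f j ^ 2 * (b j).cf k ^ 2 + 2 * (m * et b j) ^ 2 := by
    intro k hk
    have h2 := co_close hb hf2 hm hf j k (mem_range.1 hk)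
    have h3 : (co b f j k - al b f j * (b j).cf k) ^ 2 ≤ (m * et b j) ^ 2 := by
      rw [← sq_abs]; exact pow_le_pow_left₀ (abs_nonneg _) h2 2
    nlinarith [sq_nonneg (co b f j k - 2 * (al b f j * (b j).cf k))]
  refine (sum_le_sum h1).trans ?_
  rw [sum_add_distrib, ← mul_sum, sum_const, card_range, nsmul_eq_mul]
  have h4 := cf_sq (hb j)
  have h5 : 2 * al b f j ^ 2 * ∑ i ∈ range (b j).D, (b j).cf i ^ 2 ≤ 2 * al b f j ^ 2 * (1 / 4) ^ (j + 2) :=
    mul_le_mul_of_nonneg_left h4 (by positivity)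
  have h6 : ((b j).D : ℝ) * (2 * (m * et b j) ^ 2) ≤ 2 * (m * de b j) ^ 2 := by
    have h7 : ((b j).D : ℝ) ≤ 2 ^ (b j).N := D_le _
    have h8 : (1 : ℝ) ≤ 2 ^ (b j).N := one_le_pow₀ (by norm_num)
    have h9 := et_small hb j
    have h10 := et_pos b j
    have h11 : (2 : ℝ) ^ (b j).N * et b j ^ 2 ≤ de b j ^ 2 := by
      calc (2 : ℝ) ^ (b j).N * et b j ^ 2 ≤ (2 ^ (b j).N * et b j) ^ 2 := by
            have : 0 ≤ et b j ^ 2 := sq_nonneg _
            rw [mul_pow]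
            nlinarith [mul_nonneg (mul_nonneg (by positivity : (0 : ℝ) ≤ 2 ^ (b j).N) this)
              (sub_nonneg.2 h8)]
        _ ≤ _ := pow_le_pow_left₀ (by positivity) h9 2
    calc ((b j).D : ℝ) * (2 * (m * et b j) ^ 2) ≤ 2 ^ (b j).N * (2 * (m * et b j) ^ 2) :=
          mul_le_mul_of_nonneg_right h7 (by positivity)
      _ = 2 * m ^ 2 * (2 ^ (b j).N * et b j ^ 2) := by ring
      _ ≤ 2 * m ^ 2 * de b j ^ 2 := mul_le_mul_of_nonneg_left h11 (by positivity)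
      _ = _ := by ring
  linarith

/-- block vectors -/
noncomputable def v (b : ℕ → Blk) (j k : ℕ) : H := (dy_memLp (f_dy (b j) k)).toLp _

include hb in
lemma v_inner (i j k k' : ℕ) (hk : k < (b i).D) (hk' : k' < (b j).D) :
    inner ℝ (v b i k) (v b j k') = if i = j ∧ k = k' then (1 : ℝ) else 0 := by
  unfold v
  rw [inner_toLp]
  exact orth_all hb i j k k' hk hk'

/-- residual vectors -/
noncomputable def rr (b : ℕ → Blk) (f : ℝ → ℝ) (hf2 : MemLp f 2 m01) (j : ℕ) : H :=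
  hf2.toLp f - ∑ i ∈ range j, ∑ k ∈ range (b i).D, co b f i k • v b i k

lemma inner_f_v (j k : ℕ) : inner ℝ (hf2.toLp f) (v b j k) = co b f j k := by
  unfold v; rw [inner_toLp]; rfl

include hb in
lemma rr_inner_v (j k : ℕ) (hk : k < (b j).D) (j' : ℕ) :
    inner ℝ (rr b f hf2 j') (v b j k) = if j < j' then 0 else co b f j k := by
  unfold rr
  rw [inner_sub_left, inner_f_v, sum_inner]
  simp_rw [sum_inner, inner_smul_left]
  have h1 : ∀ i ∈ range j', ∑ l ∈ range (b i).D, (starRingEnd ℝ) (co b f i l) * inner ℝ (v b i l) (v b j k) =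
      if i = j then co b f j k else 0 := by
    intro i _
    by_cases hij : i = j
    · subst hij
      rw [if_pos rfl, sum_eq_single_of_mem k (mem_range.2 hk)]
      · rw [v_inner hb i i k k hk hk, if_pos ⟨rfl, rfl⟩]; simp
      · intro l hl hne
        rw [v_inner hb i i l k (mem_range.1 hl) hk, if_neg (fun h => hne h.2), mul_zero]
    · rw [if_neg hij]
      refine sum_eq_zero fun l hl => ?_
      rw [v_inner hb i j l k (mem_range.1 hl) hk, if_neg (fun h => hij h.1), mul_zero]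
  rw [sum_congr rfl h1, sum_ite_eq']
  by_cases hjj : j < j'
  · rw [if_pos (mem_range.2 hjj), if_pos hjj, sub_self]
  · rw [if_neg (by simpa using hjj), if_neg hjj, sub_zero]

include hb in
lemma rr_succ_norm (j : ℕ) : ‖rr b f hf2 (j + 1)‖ ^ 2 =
    ‖rr b f hf2 j‖ ^ 2 - ∑ k ∈ range (b j).D, co b f j k ^ 2 := by
  set s : H := ∑ k ∈ range (b j).D, co b f j k • v b j k with hs
  have h1 : rr b f hf2 (j + 1) = rr b f hf2 j - s := by
    unfold rr; rw [sum_range_succ, ← hs]; abel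
  have h2 : inner ℝ (rr b f hf2 j) s = ∑ k ∈ range (b j).D, co b f j k ^ 2 := by
    rw [hs, inner_sum]
    refine sum_congr rfl fun k hk => ?_
    rw [inner_smul_right, rr_inner_v hb hf2 j k (mem_range.1 hk) j, if_neg (lt_irrefl j), sq]
  have h3 : inner ℝ s s = ∑ k ∈ range (b j).D, co b f j k ^ 2 := by
    rw [hs, sum_inner]
    refine sum_congr rfl fun k hk => ?_
    rw [inner_smul_left, inner_sum, sum_eq_single_of_mem k hk]
    · rw [inner_smul_right, v_inner hb j j k k (mem_range.1 hk) (mem_range.1 hk), if_pos ⟨rfl, rfl⟩]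
      simp [sq]
    · intro l hl hne
      rw [inner_smul_right, v_inner hb j j k l (mem_range.1 hk) (mem_range.1 hl),
        if_neg (fun h => hne h.2.symm), mul_zero]
  rw [h1, norm_sub_sq_real, h2, ← real_inner_self_eq_norm_sq s, h3]
  ring

/-- test vectors -/
noncomputable def ev (n x : ℕ) : H := (dy_memLp (⟨_, rfl⟩ : dy n (eI n x))).toLp _

lemma ev_norm (n x : ℕ) : ‖ev n x‖ ≤ 1 := by
  have h1 : ‖ev n x‖ ^ 2 ≤ 1 := by
    rw [← real_inner_self_eq_norm_sq]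
    unfold ev
    rw [inner_toLp]
    have : |∫ t in Set.Icc (0 : ℝ) 1, eI n x t * eI n x t| ≤ 1 := by
      apply int_bound
      intro t _ _
      unfold eI st
      dsimp only
      split_ifs <;> simp
    exact (le_abs_self _).trans this
  nlinarith [norm_nonneg (ev n x)]

include hb in
lemma rr_inner_e (j : ℕ) : inner ℝ (rr b f hf2 j) (ev (q j) (xx j)) = al b f j := by
  unfold al
  rw [int_resid hb j hf2]
  unfold rr
  rw [inner_sub_left]
  have h1 : inner ℝ (hf2.toLp f) (ev (q j) (xx j)) = ∫ t in Set.Icc (0 : ℝ) 1, f t * e j t := by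
    unfold ev; rw [inner_toLp]; rfl
  rw [h1]
  congr 1
  rw [sum_inner]
  refine sum_congr rfl fun i _ => ?_
  rw [sum_inner]
  refine sum_congr rfl fun k _ => ?_
  rw [inner_smul_left]
  have h2 : inner ℝ (v b i k) (ev (q j) (xx j)) = ∫ s in Set.Icc (0 : ℝ) 1, e j s * (b i).f k s := by
    unfold v ev; rw [inner_toLp, int_comm]; rfl
  rw [h2]
  simp only [conj_trivial]
  unfold co
  ring

include hb in
lemma al_le (j : ℕ) : al b f j ^ 2 ≤ ‖rr b f hf2 j‖ ^ 2 := by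
  rw [← rr_inner_e hb hf2 j, ← sq_abs]
  refine pow_le_pow_left₀ (abs_nonneg _) ?_ 2
  refine (abs_real_inner_le_norm _ _).trans ?_
  have := ev_norm (q j) (xx j)
  nlinarith [norm_nonneg (rr b f hf2 j)]

include hb in
lemma rr_anti {i j : ℕ} (h : i ≤ j) : ‖rr b f hf2 j‖ ^ 2 ≤ ‖rr b f hf2 i‖ ^ 2 := by
  induction j, h using Nat.le_induction with
  | base => exact le_rfl
  | succ j _ ih =>
    rw [rr_succ_norm hb hf2 j]
    have : 0 ≤ ∑ k ∈ range (b j).D, co b f j k ^ 2 := sum_nonneg fun _ _ => sq_nonneg _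
    linarith

include hb in
lemma l_mono {i j : ℕ} (h : i ≤ j) : (b i).l ≤ (b j).l := by
  rcases h.eq_or_lt with h | h
  · rw [h]
  · have h1 := (hb j).hl i h
    have h2 := l_le_L hb i
    unfold Blk.sc at h1
    omega

include hb hf2 hm hf in
/-- the tail loses little energy -/
lemma tail_loss (i n : ℕ) : ‖rr b f hf2 i‖ ^ 2 - ‖rr b f hf2 (i + n)‖ ^ 2 ≤
    ‖rr b f hf2 i‖ ^ 2 * (1 / 2) * (1 - (1 / 4) ^ n) + 3 * (m * de b i) ^ 2 * (1 - (1 / 4) ^ n) := by
  induction n with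
  | zero => simp
  | succ n ih =>
    have h1 := rr_succ_norm hb hf2 (i + n)
    have h2 := energy hb hf2 hm hf (i + n)
    have h3 := (al_le hb hf2 (i + n)).trans (rr_anti hb hf2 (Nat.le_add_right i n))
    have h4 : de b (i + n) ≤ de b i * (1 / 2) ^ (2 * n) := by
      unfold de
      rw [← pow_add]
      apply pow_le_pow_of_le_one (by norm_num) (by norm_num)
      have := l_mono hb (Nat.le_add_right i n)
      omega
    have h5 : (m * de b (i + n)) ^ 2 ≤ (m * de b i) ^ 2 * (1 / 4) ^ n := by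
      have h6 : m * de b (i + n) ≤ m * de b i * (1 / 2) ^ (2 * n) := by
        rw [mul_assoc]; exact mul_le_mul_of_nonneg_left h4 hm
      have h7 : 0 ≤ m * de b (i + n) := mul_nonneg hm (de_pos b _).le
      calc (m * de b (i + n)) ^ 2 ≤ (m * de b i * (1 / 2) ^ (2 * n)) ^ 2 := pow_le_pow_left₀ h7 h6 2
        _ = (m * de b i) ^ 2 * ((1 / 4) ^ n) ^ 2 := by
            rw [mul_pow]; congr 1; rw [pow_mul]; norm_num
        _ ≤ (m * de b i) ^ 2 * (1 / 4) ^ n := by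
            refine mul_le_mul_of_nonneg_left ?_ (sq_nonneg _)
            have h8 : (0 : ℝ) ≤ (1 / 4) ^ n := by positivity
            have h9 : (1 / 4 : ℝ) ^ n ≤ 1 := pow_le_one₀ (by norm_num) (by norm_num)
            nlinarith
    have h10 : (1 / 4 : ℝ) ^ (i + n + 2) ≤ (1 / 16) * (1 / 4) ^ n := by
      calc (1 / 4 : ℝ) ^ (i + n + 2) ≤ (1 / 4) ^ (n + 2) := pow_le_pow_of_le_one (by norm_num) (by norm_num) (by omega)
        _ = _ := by rw [pow_add]; norm_num; ring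
    have h11 : 2 * al b f (i + n) ^ 2 * (1 / 4) ^ (i + n + 2) ≤ 2 * ‖rr b f hf2 i‖ ^ 2 * ((1 / 16) * (1 / 4) ^ n) :=
      mul_le_mul (by linarith) h10 (by positivity) (by positivity)
    have h12 : ‖rr b f hf2 (i + (n + 1))‖ ^ 2 = ‖rr b f hf2 (i + n)‖ ^ 2 - ∑ k ∈ range (b (i + n)).D, co b f (i + n) k ^ 2 := h1
    have h13 : (1 / 4 : ℝ) ^ (n + 1) = (1 / 4) * (1 / 4) ^ n := by rw [pow_succ]; ring
    rw [h12, h13]
    have h14 : (0 : ℝ) ≤ (1 / 4) ^ n := by positivity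
    nlinarith [mul_nonneg (sq_nonneg ‖rr b f hf2 i‖) h14, mul_nonneg (sq_nonneg (m * de b i)) h14]

end

end Pool.Agent.H7.Div
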