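import Pool.Agent.H7.Div.Hilb

set_option autoImplicit false

open Finset MeasureTheory Filter Topology
open scoped InnerProductSpace

namespace Pool.Agent.H7.Div

/-- integral of a function against a step function -/
lemma int_mul_st (n : ℕ) (A : ℕ → ℝ) (F : ℝ → ℝ) (hF : Continuous F) :
    ∫ t in Set.Icc (0 : ℝ) 1, F t * st n A t =
      ∑ k ∈ range (2 ^ n), A k * ∫ t in ((k : ℝ) / 2 ^ n)..(((k + 1 : ℕ) : ℝ) / 2 ^ n), F t := by
  have h2 : (0 : ℝ) < 2 ^ n := by positivity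
  have key : ∀ k : ℕ, IntervalIntegrable (fun t => F t * st n A t) volume ((k : ℝ) / 2 ^ n) (((k + 1 : ℕ) : ℝ) / 2 ^ n) ∧
      ∫ t in ((k : ℝ) / 2 ^ n)..(((k + 1 : ℕ) : ℝ) / 2 ^ n), F t * st n A t =
        A k * ∫ t in ((k : ℝ) / 2 ^ n)..(((k + 1 : ℕ) : ℝ) / 2 ^ n), F t := by
    intro k
    have hle : (k : ℝ) / 2 ^ n ≤ ((k + 1 : ℕ) : ℝ) / 2 ^ n := by
      apply div_le_div_of_nonneg_right _ h2.le
      push_cast; linarith
    have hae : ∀ᵐ t ∂(volume : Measure ℝ), t ∈ Set.uIoc ((k : ℝ) / 2 ^ n) (((k + 1 : ℕ) : ℝ) / 2 ^ n) →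
        F t * st n A t = A k * F t := by
      have hne : ∀ᵐ t ∂(volume : Measure ℝ), t ≠ ((k + 1 : ℕ) : ℝ) / 2 ^ n := by
        rw [ae_iff]; simp
      filter_upwards [hne] with t ht hmem
      rw [Set.uIoc_of_le hle] at hmem
      have h3 : t < ((k + 1 : ℕ) : ℝ) / 2 ^ n := lt_of_le_of_ne hmem.2 ht
      unfold st
      have : ⌊(2 : ℝ) ^ n * t⌋₊ = k := by
        rw [Nat.floor_eq_iff (by
          have : (0 : ℝ) ≤ (k : ℝ) / 2 ^ n := by positivity
          have : 0 ≤ t := this.trans hmem.1.le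
          positivity)]
        constructor
        · have := hmem.1
          rw [div_lt_iff₀ h2] at this
          linarith
        · rw [lt_div_iff₀ h2] at h3
          push_cast at h3
          linarith
      rw [this, mul_comm]
    constructor
    · have hi : IntervalIntegrable (fun t : ℝ => A k * F t) volume ((k : ℝ) / 2 ^ n) (((k + 1 : ℕ) : ℝ) / 2 ^ n) :=
        (continuous_const.mul hF).intervalIntegrable _ _
      refine hi.congr_ae ?_
      rw [Filter.EventuallyEq, ae_restrict_iff' measurableSet_uIoc]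
      filter_upwards [hae] with t ht hmem
      exact (ht hmem).symm
    · rw [intervalIntegral.integral_congr_ae hae, intervalIntegral.integral_const_mul]
  rw [integral_Icc_eq_integral_Ioc, ← intervalIntegral.integral_of_le zero_le_one]
  have h := intervalIntegral.sum_integral_adjacent_intervals (f := fun t => F t * st n A t) (μ := volume)
    (a := fun k : ℕ => (k : ℝ) / 2 ^ n) (n := 2 ^ n) (fun k _ => (key k).1)
  simp only [Nat.cast_zero, zero_div] at h
  have h1 : (((2 ^ n : ℕ) : ℝ)) / 2 ^ n = 1 := by push_cast; field_simp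
  rw [h1] at h
  rw [← h]
  exact sum_congr rfl fun k _ => (key k).2

/-- local Rademacher function -/
noncomputable def rho (l k0 : ℕ) : ℝ → ℝ := st (l + 1) (fun k => if k = 2 * k0 then 1 else if k = 2 * k0 + 1 then -1 else 0)

lemma sum_two (n k0 : ℕ) (hk : 2 * k0 + 1 < n) (A : ℕ → ℝ) (c1 c2 : ℝ) :
    ∑ k ∈ range n, (if k = 2 * k0 then c1 else if k = 2 * k0 + 1 then c2 else 0) * A k =
      c1 * A (2 * k0) + c2 * A (2 * k0 + 1) := by
  have h : ∀ k, (if k = 2 * k0 then c1 else if k = 2 * k0 + 1 then c2 else 0) * A k =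
      (if k = 2 * k0 then c1 * A (2 * k0) else 0) + (if k = 2 * k0 + 1 then c2 * A (2 * k0 + 1) else 0) := by
    intro k
    by_cases h1 : k = 2 * k0
    · subst h1
      rw [if_pos rfl, if_pos rfl, if_neg (by omega)]; ring
    · rw [if_neg h1, if_neg h1]
      by_cases h2 : k = 2 * k0 + 1
      · subst h2; simp
      · simp [h2]
  simp_rw [h]
  rw [sum_add_distrib, sum_ite_eq', sum_ite_eq', if_pos (mem_range.2 (by omega)),
    if_pos (mem_range.2 hk)]

section

variable {b : ℕ → Blk} (hb : ∀ j, Spec j b (b j)) {f : ℝ → ℝ} (hf2 : MemLp f 2 m01) {m : ℝ}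
  (hm : 0 ≤ m) (hf : ∀ s ∈ Set.Icc (0 : ℝ) 1, ∀ t ∈ Set.Icc (0 : ℝ) 1, |f s - f t| ≤ m * |s - t|)

lemma rho_norm {l k0 : ℕ} (hk : k0 < 2 ^ l) :
    ‖(dy_memLp (⟨_, rfl⟩ : dy (l + 1) (rho l k0))).toLp _‖ ^ 2 = 2 * (1 / 2) ^ (l + 1) := by
  rw [← real_inner_self_eq_norm_sq, inner_toLp]
  have h1 : (fun t => rho l k0 t * rho l k0 t) = st (l + 1) (fun k =>
    (if k = 2 * k0 then 1 else if k = 2 * k0 + 1 then 1 else 0) * 1) := by
    funext t
    unfold rho st
    dsimp only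
    split_ifs <;> norm_num
  have hk' : 2 * k0 + 1 < 2 ^ (l + 1) := by rw [pow_succ]; omega
  rw [h1, int_st, sum_two _ _ hk' (fun _ => 1) 1 1, one_div_pow]
  ring

/-- pairing of a differentiable function with a local Rademacher function -/
lemma rho_pair {t0 f' ε : ℝ} (ht0 : 0 < t0) (ht1 : t0 < 1) (hε : 0 < ε)
    (hd : ∀ t, |t - t0| < ε → |f t - f t0 - f' * (t - t0)| ≤ |f'| / 8 * |t - t0|)
    (hf2 : MemLp f 2 m01) {l : ℕ} (hl : (1 / 2 : ℝ) ^ l < ε) :
    |f'| / 2 * ((1 / 2) ^ (l + 1)) ^ 2 ≤ |∫ t in Set.Icc (0 : ℝ) 1, f t * rho l ⌊(2 : ℝ) ^ l * t0⌋₊ t| := by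
  set k0 := ⌊(2 : ℝ) ^ l * t0⌋₊ with hk0
  set h : ℝ := (1 / 2) ^ (l + 1) with hh
  have hk : k0 < 2 ^ l := floor_lt ht1
  have hk' : 2 * k0 + 1 < 2 ^ (l + 1) := by rw [pow_succ]; omega
  have hrho : dy (l + 1) (rho l k0) := ⟨_, rfl⟩
  have h2l : (0 : ℝ) < 2 ^ l := by positivity
  have hh2 : 2 * h = (1 / 2) ^ l := by rw [hh, pow_succ]; ring
  -- decomposition
  have e0 : ∀ t, f t * rho l k0 t = (f t0 - f' * t0) * rho l k0 t + f' * (t * rho l k0 t) +
      (f t - f t0 - f' * (t - t0)) * rho l k0 t := by intro t; ring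
  have i1 : IntegrableOn (fun t => (f t0 - f' * t0) * rho l k0 t) (Set.Icc 0 1) := (dy_int hrho).const_mul _
  have hid : MemLp (fun t : ℝ => t) 2 m01 := by
    refine MemLp.of_bound measurable_id.aestronglyMeasurable 1 ?_
    rw [ae_restrict_iff' measurableSet_Icc]
    exact Eventually.of_forall fun t ht => by
      rw [Real.norm_of_nonneg ht.1]; exact ht.2
  have i2' : IntegrableOn (fun t => t * rho l k0 t) (Set.Icc 0 1) := MemLp.integrable_mul hid (dy_memLp hrho)
  have i2 : IntegrableOn (fun t => f' * (t * rho l k0 t)) (Set.Icc 0 1) := i2'.const_mul _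
  have i4 : IntegrableOn (fun t => f t * rho l k0 t) (Set.Icc 0 1) := MemLp.integrable_mul hf2 (dy_memLp hrho)
  have i3 : IntegrableOn (fun t => (f t - f t0 - f' * (t - t0)) * rho l k0 t) (Set.Icc 0 1) := by
    have := (i4.sub i1).sub i2
    refine this.congr_fun (fun t _ => ?_) measurableSet_Icc
    simp only [Pi.sub_apply]; ring
  have i12 : IntegrableOn (fun t => (f t0 - f' * t0) * rho l k0 t + f' * (t * rho l k0 t)) (Set.Icc 0 1) := i1.add i2
  have z1 : ∫ t in Set.Icc (0 : ℝ) 1, rho l k0 t = 0 := by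
    unfold rho
    rw [int_st]
    have := sum_two (2 ^ (l + 1)) k0 hk' (fun _ => 1) 1 (-1)
    simp only [mul_one] at this
    rw [this]; ring
  have z2 : ∫ t in Set.Icc (0 : ℝ) 1, t * rho l k0 t = - h ^ 2 := by
    have e1 := int_mul_st (l + 1) (fun k => if k = 2 * k0 then 1 else if k = 2 * k0 + 1 then -1 else 0)
      (fun t => t) continuous_id
    have e2 : ∫ t in Set.Icc (0 : ℝ) 1, t * rho l k0 t = _ := e1
    rw [e2, sum_two _ _ hk', integral_id, integral_id]
    push_cast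
    rw [hh, one_div_pow]
    field_simp
    ring
  have hbd : |∫ t in Set.Icc (0 : ℝ) 1, (f t - f t0 - f' * (t - t0)) * rho l k0 t| ≤ |f'| / 8 * (2 * h) * (2 * h) := by
    have habs : dy (l + 1) (fun t => |rho l k0 t|) :=
      ⟨fun k => |(if k = 2 * k0 then 1 else if k = 2 * k0 + 1 then -1 else 0 : ℝ)|, rfl⟩
    have e1 : |∫ t in Set.Icc (0 : ℝ) 1, (f t - f t0 - f' * (t - t0)) * rho l k0 t| ≤
        ∫ t in Set.Icc (0 : ℝ) 1, |f'| / 8 * (2 * h) * |rho l k0 t| := by
      refine norm_integral_le_of_norm_le (μ := m01) (f := fun t => (f t - f t0 - f' * (t - t0)) * rho l k0 t)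
        (g := fun t => |f'| / 8 * (2 * h) * |rho l k0 t|) ((dy_int habs).const_mul _) ?_
      filter_upwards [ae_lt_one] with t ht
      rw [Real.norm_eq_abs, abs_mul]
      by_cases hr : rho l k0 t = 0
      · rw [hr]; simp
      refine mul_le_mul_of_nonneg_right ?_ (abs_nonneg _)
      -- t is in the same dyadic interval as t0
      have hfl : ⌊(2 : ℝ) ^ (l + 1) * t⌋₊ = 2 * k0 ∨ ⌊(2 : ℝ) ^ (l + 1) * t⌋₊ = 2 * k0 + 1 := by
        unfold rho st at hr
        by_contra hcon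
        push Not at hcon
        apply hr
        dsimp only
        rw [if_neg hcon.1, if_neg hcon.2]
      have h3 : 0 ≤ (2 : ℝ) ^ (l + 1) * t := by have := ht.1; positivity
      have h4 := Nat.floor_le h3
      have h5 := Nat.lt_floor_add_one ((2 : ℝ) ^ (l + 1) * t)
      have h6 : (2 * k0 : ℝ) ≤ 2 ^ (l + 1) * t ∧ 2 ^ (l + 1) * t < 2 * k0 + 2 := by
        rcases hfl with h7 | h7
        · rw [h7] at h4 h5; push_cast at h4 h5; constructor <;> linarith
        · rw [h7] at h4 h5; push_cast at h4 h5; constructor <;> linarith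
      have h8 := Nat.floor_le (show 0 ≤ (2 : ℝ) ^ l * t0 by positivity)
      have h9 := Nat.lt_floor_add_one ((2 : ℝ) ^ l * t0)
      rw [← hk0] at h8 h9
      rw [pow_succ] at h6
      have h10 : |t - t0| < 2 * h := by
        have e3 : 2 * h * 2 ^ l = 1 := by
          rw [hh2, one_div_pow]; field_simp
        have e4 : |(2 : ℝ) ^ l * (t - t0)| < 1 := by
          rw [abs_lt]; constructor <;> nlinarith [h6.1, h6.2]
        rw [abs_mul, abs_of_pos h2l] at e4
        by_contra hcon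
        push Not at hcon
        nlinarith [mul_le_mul_of_nonneg_left hcon h2l.le]
      have h11 : |t - t0| < ε := by rw [hh2] at h10; linarith
      refine (hd t h11).trans ?_
      exact mul_le_mul_of_nonneg_left h10.le (by positivity)
    refine e1.trans (le_of_eq ?_)
    rw [integral_const_mul]
    congr 1
    have e5 : (fun t => |rho l k0 t|) = st (l + 1) (fun k =>
      (if k = 2 * k0 then 1 else if k = 2 * k0 + 1 then 1 else 0) * 1) := by
      funext t
      unfold rho st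
      dsimp only
      split_ifs <;> norm_num
    rw [e5, int_st, sum_two _ _ hk' (fun _ => 1) 1 1, hh, one_div_pow]
    ring
  simp_rw [e0]
  rw [integral_add i12 i3, integral_add i1 i2, integral_const_mul, integral_const_mul, z1, z2, mul_zero, zero_add]
  have h12 : |f' * -h ^ 2| = |f'| * h ^ 2 := by
    rw [abs_mul, abs_neg, abs_of_nonneg (sq_nonneg h)]
  have h13 := abs_sub_abs_le_abs_sub (f' * -h ^ 2) (-(∫ t in Set.Icc (0 : ℝ) 1, (f t - f t0 - f' * (t - t0)) * rho l k0 t))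
  rw [abs_neg, sub_neg_eq_add, h12] at h13
  nlinarith [abs_nonneg f', sq_nonneg h]

include hb in
lemma rr_inner_rho (j k0 : ℕ) (hk : k0 < 2 ^ (b j).l) :
    inner ℝ (rr b f hf2 j) ((dy_memLp (⟨_, rfl⟩ : dy ((b j).l + 1) (rho (b j).l k0))).toLp _) =
      ∫ t in Set.Icc (0 : ℝ) 1, f t * rho (b j).l k0 t := by
  unfold rr
  rw [inner_sub_left, inner_toLp, sum_inner]
  have h0 : ∀ i ∈ range j, inner ℝ (∑ k ∈ range (b i).D, co b f i k • v b i k)
      ((dy_memLp (⟨_, rfl⟩ : dy ((b j).l + 1) (rho (b j).l k0))).toLp _) = 0 := by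
    intro i hi
    rw [sum_inner]
    refine sum_eq_zero fun k _ => ?_
    rw [inner_smul_left]
    unfold v
    rw [inner_toLp]
    obtain ⟨B, hB⟩ := dy_mono ((hb j).hl i (mem_range.1 hi)) (f_dy (b i) k)
    rw [hB, st_refine (b j).l 1]
    have e1 : (fun t => st ((b j).l + 1) (fun k => B (k / 2 ^ 1)) t * rho (b j).l k0 t) =
      st ((b j).l + 1) (fun k => (if k = 2 * k0 then 1 else if k = 2 * k0 + 1 then -1 else 0) * B (k / 2 ^ 1)) := by
      funext t
      unfold rho st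
      ring
    have hk' : 2 * k0 + 1 < 2 ^ ((b j).l + 1) := by rw [pow_succ]; omega
    rw [e1, int_st, sum_two _ _ hk' (fun k => B (k / 2 ^ 1)) 1 (-1)]
    have e2 : 2 * k0 / 2 ^ 1 = k0 := by omega
    have e3 : (2 * k0 + 1) / 2 ^ 1 = k0 := by omega
    rw [e2, e3]
    simp
  rw [sum_eq_zero h0, sub_zero]

include hb hf2 hm hf in
/-- the energy of the residuals does not tend to zero: differentiable nonconstant case -/
lemma not_small {t0 f' ε : ℝ} (ht0 : 0 < t0) (ht1 : t0 < 1) (hε : 0 < ε) (hf' : f' ≠ 0)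
    (hd : ∀ t, |t - t0| < ε → |f t - f t0 - f' * (t - t0)| ≤ |f'| / 8 * |t - t0|)
    (hlim : Tendsto (fun j => ‖rr b f hf2 j‖ ^ 2) atTop (𝓝 0)) : False := by
  -- upper bound
  have hup : ∀ i, ‖rr b f hf2 i‖ ^ 2 ≤ 6 * (m * de b i) ^ 2 := by
    intro i
    have h1 : ∀ n, ‖rr b f hf2 i‖ ^ 2 ≤ ‖rr b f hf2 (i + n)‖ ^ 2 + ‖rr b f hf2 i‖ ^ 2 * (1 / 2) + 3 * (m * de b i) ^ 2 := by
      intro n
      have h2 := tail_loss hb hf2 hm hf i n
      have h3 : (0 : ℝ) ≤ (1 / 4) ^ n := by positivity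
      nlinarith [mul_nonneg (sq_nonneg ‖rr b f hf2 i‖) h3, mul_nonneg (sq_nonneg (m * de b i)) h3]
    have h4 : Tendsto (fun n => ‖rr b f hf2 (i + n)‖ ^ 2 + ‖rr b f hf2 i‖ ^ 2 * (1 / 2) + 3 * (m * de b i) ^ 2) atTop
        (𝓝 (0 + ‖rr b f hf2 i‖ ^ 2 * (1 / 2) + 3 * (m * de b i) ^ 2)) := by
      have h5 : Tendsto (fun n => ‖rr b f hf2 (i + n)‖ ^ 2) atTop (𝓝 0) := by
        have : Tendsto (fun n => i + n) atTop atTop := tendsto_atTop_mono (fun n => Nat.le_add_left n i) tendsto_id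
        exact hlim.comp this
      exact (h5.add_const _).add_const _
    have h6 := ge_of_tendsto' h4 h1
    linarith
  -- l tends to infinity
  have hl : ∀ j, j ≤ (b j).l := by
    intro j
    induction j with
    | zero => exact Nat.zero_le _
    | succ j ih =>
      have h1 := (hb (j + 1)).hl j (Nat.lt_succ_self j)
      have h2 := l_le_L hb j
      unfold Blk.sc at h1
      omega
  obtain ⟨J, hJ⟩ := exists_pow_lt_of_lt_one hε (show (1 / 2 : ℝ) < 1 by norm_num)
  have hbig : ∀ j, J ≤ j → |f'| ^ 2 ≤ 48 * m ^ 2 * (1 / 16) ^ j := by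
    intro j hj
    set h : ℝ := (1 / 2) ^ ((b j).l + 1) with hh
    have hh0 : 0 < h := by positivity
    have hh1 : h ≤ 1 := pow_le_one₀ (by norm_num) (by norm_num)
    have hl' : (1 / 2 : ℝ) ^ (b j).l < ε :=
      lt_of_le_of_lt (pow_le_pow_of_le_one (by norm_num) (by norm_num) (hj.trans (hl j))) hJ
    have h1 := rho_pair ht0 ht1 hε hd hf2 hl'
    have hk : ⌊(2 : ℝ) ^ (b j).l * t0⌋₊ < 2 ^ (b j).l := floor_lt ht1
    rw [← rr_inner_rho hb hf2 j _ hk] at h1
    have h2 := h1.trans (abs_real_inner_le_norm _ _)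
    have h3 := rho_norm hk
    set R := ‖(dy_memLp (⟨_, rfl⟩ : dy ((b j).l + 1) (rho (b j).l ⌊(2 : ℝ) ^ (b j).l * t0⌋₊))).toLp _‖ with hR
    have h4 : (|f'| / 2 * h ^ 2) ^ 2 ≤ ‖rr b f hf2 j‖ ^ 2 * (2 * h) := by
      calc (|f'| / 2 * h ^ 2) ^ 2 ≤ (‖rr b f hf2 j‖ * R) ^ 2 := pow_le_pow_left₀ (by positivity) h2 2
        _ = ‖rr b f hf2 j‖ ^ 2 * R ^ 2 := by ring
        _ = _ := by rw [h3]
    have h5 := hup j
    have h6 : de b j ^ 2 = h ^ 4 * (1 / 16) ^ j := by
      unfold de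
      rw [hh]
      have : (1 / 16 : ℝ) ^ j = (1 / 2) ^ (4 * j) := by rw [pow_mul]; norm_num
      rw [this, ← pow_mul, ← pow_mul, ← pow_add]
      congr 1
      ring
    have h7 : (|f'| / 2 * h ^ 2) ^ 2 ≤ 6 * (m ^ 2 * (h ^ 4 * (1 / 16) ^ j)) * (2 * h) := by
      refine h4.trans (mul_le_mul_of_nonneg_right ?_ (by positivity))
      rw [← h6, ← mul_pow]; exact h5
    have h8 : h ^ 4 * (|f'| ^ 2) ≤ h ^ 4 * (48 * m ^ 2 * (1 / 16) ^ j * h) := by nlinarith
    have h9 := le_of_mul_le_mul_left h8 (by positivity)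
    refine h9.trans ?_
    have h10 : 0 ≤ 48 * m ^ 2 * (1 / 16 : ℝ) ^ j := by positivity
    nlinarith
  have hlim2 : Tendsto (fun j : ℕ => 48 * m ^ 2 * (1 / 16 : ℝ) ^ j) atTop (𝓝 (48 * m ^ 2 * 0)) :=
    (tendsto_pow_atTop_nhds_zero_of_lt_one (by norm_num) (by norm_num)).const_mul _
  rw [mul_zero] at hlim2
  have h11 := ge_of_tendsto hlim2 (eventually_atTop.2 ⟨J, hbig⟩)
  have h12 : 0 < |f'| ^ 2 := by positivity
  linarith

include hb in
lemma inner_rr_rr {i j : ℕ} (h : i ≤ j) : inner ℝ (rr b f hf2 i) (rr b f hf2 j) = inner ℝ (hf2.toLp f) (rr b f hf2 j) := by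
  conv_lhs => unfold rr
  rw [inner_sub_left, sum_inner]
  have h0 : ∀ l ∈ range i, inner ℝ (∑ k ∈ range (b l).D, co b f l k • v b l k)
      (hf2.toLp f - ∑ i ∈ range j, ∑ k ∈ range (b i).D, co b f i k • v b i k) = 0 := by
    intro l hl
    rw [sum_inner]
    refine sum_eq_zero fun k hk => ?_
    rw [inner_smul_left, real_inner_comm]
    have := rr_inner_v hb hf2 l k (mem_range.1 hk) j
    unfold rr at this
    rw [this, if_pos (lt_of_lt_of_le (mem_range.1 hl) h), mul_zero]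
  rw [sum_eq_zero h0, sub_zero]
  rfl

include hb in
lemma rr_diff {i j : ℕ} (h : i ≤ j) : ‖rr b f hf2 i - rr b f hf2 j‖ ^ 2 = ‖rr b f hf2 i‖ ^ 2 - ‖rr b f hf2 j‖ ^ 2 := by
  rw [norm_sub_sq_real, inner_rr_rr hb hf2 h, ← inner_rr_rr hb hf2 (le_refl j), real_inner_self_eq_norm_sq]
  ring

include hb in
/-- the residuals converge -/
lemma rr_lim : ∃ r : H, Tendsto (rr b f hf2) atTop (𝓝 r) := by
  have hanti : Antitone fun j => ‖rr b f hf2 j‖ ^ 2 := fun i j h => rr_anti hb hf2 h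
  have hbdd : BddBelow (Set.range fun j => ‖rr b f hf2 j‖ ^ 2) := ⟨0, by rintro _ ⟨j, rfl⟩; positivity⟩
  have hD := tendsto_atTop_ciInf hanti hbdd
  set Di := ⨅ j, ‖rr b f hf2 j‖ ^ 2 with hDi
  have hle : ∀ j, Di ≤ ‖rr b f hf2 j‖ ^ 2 := fun j => ciInf_le hbdd j
  apply cauchySeq_tendsto_of_complete
  refine cauchySeq_of_le_tendsto_0' (fun j => Real.sqrt (‖rr b f hf2 j‖ ^ 2 - Di)) ?_ ?_
  · intro i j hij
    rw [dist_eq_norm]
    apply Real.le_sqrt_of_sq_le
    rw [rr_diff hb hf2 hij]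
    have := hle j
    linarith
  · have h1 : Tendsto (fun j => ‖rr b f hf2 j‖ ^ 2 - Di) atTop (𝓝 (Di - Di)) := hD.sub_const _
    rw [sub_self] at h1
    have h2 := (Real.continuous_sqrt.tendsto 0).comp h1
    rw [Real.sqrt_zero] at h2
    exact h2

include hb hf2 hm hf in
/-- if the residual energy does not tend to zero, infinitely many test coefficients are large -/
lemma al_large (hlim : ¬ Tendsto (fun j => ‖rr b f hf2 j‖ ^ 2) atTop (𝓝 0)) :
    ∃ κ : ℝ, 0 < κ ∧ ∀ J, ∃ j, J ≤ j ∧ κ ≤ |al b f j| := by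
  obtain ⟨r, hr⟩ := rr_lim hb hf2
  by_contra hcon
  push Not at hcon
  have hal : Tendsto (al b f) atTop (𝓝 0) := by
    rw [Metric.tendsto_atTop]
    intro κ hκ
    obtain ⟨J, hJ⟩ := hcon κ hκ
    refine ⟨J, fun j hj => ?_⟩
    rw [Real.dist_eq, sub_zero]
    exact hJ j hj
  -- r is orthogonal to all test vectors
  have horth : ∀ n x, inner ℝ r (ev n x) = 0 := by
    intro n x
    have h1 : Tendsto (fun i => Nat.pair (Nat.pair n x) i) atTop atTop :=
      tendsto_atTop_mono (fun i => Nat.right_le_pair _ _) tendsto_id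
    have h2 : Tendsto (fun i => inner ℝ (rr b f hf2 (Nat.pair (Nat.pair n x) i)) (ev n x)) atTop (𝓝 (inner ℝ r (ev n x))) :=
      ((hr.comp h1).inner tendsto_const_nhds)
    have h3 : ∀ i, inner ℝ (rr b f hf2 (Nat.pair (Nat.pair n x) i)) (ev n x) = al b f (Nat.pair (Nat.pair n x) i) := by
      intro i
      have := rr_inner_e hb hf2 (Nat.pair (Nat.pair n x) i)
      unfold q xx at this
      simpa only [Nat.unpair_pair] using this
    simp_rw [h3] at h2
    exact tendsto_nhds_unique h2 (hal.comp h1)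
  -- the step approximations
  have hsa : ∀ n, inner ℝ r ((dy_memLp (⟨_, rfl⟩ : dy n (sa f n))).toLp _) = 0 := by
    intro n
    have h1 : (dy_memLp (⟨_, rfl⟩ : dy n (sa f n))).toLp _ = ∑ x ∈ range (2 ^ n), f (x / 2 ^ n) • ev n x := by
      apply Lp.ext
      have h2 : ((∑ x ∈ range (2 ^ n), f (x / 2 ^ n) • ev n x : H) : ℝ → ℝ) =ᵐ[m01]
          ∑ x ∈ range (2 ^ n), (((f (x / 2 ^ n) • ev n x : H)) : ℝ → ℝ) := Lp.coeFn_finsetSum _ _
      have h3 : ∀ᵐ t ∂m01, ∀ x ∈ range (2 ^ n), (((f (x / 2 ^ n) • ev n x : H)) : ℝ → ℝ) t = f (x / 2 ^ n) * eI n x t := by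
        refine (ae_ball_iff (range (2 ^ n)).countable_toSet).2 fun x _ => ?_
        have h4 := (dy_memLp (⟨_, rfl⟩ : dy n (eI n x))).coeFn_toLp
        filter_upwards [Lp.coeFn_smul (f (x / 2 ^ n)) (ev n x), h4] with t h5 h6
        rw [h5, Pi.smul_apply, smul_eq_mul]
        unfold ev
        rw [h6]
      filter_upwards [(dy_memLp (⟨_, rfl⟩ : dy n (sa f n))).coeFn_toLp, h2, h3, ae_lt_one] with t h5 h6 h7 h8
      rw [h5, h6, Finset.sum_apply, sum_congr rfl h7]
      unfold sa eI st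
      dsimp only
      simp_rw [mul_ite, mul_one, mul_zero]
      rw [sum_ite_eq, if_pos (mem_range.2 (floor_lt h8.2))]
    rw [h1, inner_sum]
    exact sum_eq_zero fun x _ => by rw [inner_smul_right, horth, mul_zero]
  have hrf : inner ℝ r (hf2.toLp f) = 0 := by
    have h1 : ∀ n : ℕ, |inner ℝ r (hf2.toLp f)| ≤ ‖r‖ * (m / 2 ^ n) := by
      intro n
      set S := (dy_memLp (⟨_, rfl⟩ : dy n (sa f n))).toLp _ with hS
      have h2 : inner ℝ r (hf2.toLp f) = inner ℝ r (hf2.toLp f - S) := by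
        rw [inner_sub_right, hsa n, sub_zero]
      rw [h2]
      refine (abs_real_inner_le_norm _ _).trans (mul_le_mul_of_nonneg_left ?_ (norm_nonneg _))
      have h3 : hf2.toLp f - S = (hf2.sub (dy_memLp (⟨_, rfl⟩ : dy n (sa f n)))).toLp _ := by
        rw [hS]; exact (MemLp.toLp_sub hf2 _).symm
      have h4 : ‖hf2.toLp f - S‖ ^ 2 ≤ (m / 2 ^ n) ^ 2 := by
        rw [h3, ← real_inner_self_eq_norm_sq, inner_toLp]
        refine (le_abs_self _).trans (int_bound fun t h0 h1 => ?_)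
        have h5 := sa_close hm hf n h0 h1
        simp only [Pi.sub_apply]
        rw [abs_mul, ← sq]
        exact pow_le_pow_left₀ (abs_nonneg _) h5 2
      exact le_of_sq_le_sq h4 (by positivity)
    have h2 : Tendsto (fun n : ℕ => ‖r‖ * (m / 2 ^ n)) atTop (𝓝 (‖r‖ * 0)) := by
      apply Tendsto.const_mul
      have : Tendsto (fun n : ℕ => m * (1 / 2 : ℝ) ^ n) atTop (𝓝 (m * 0)) :=
        (tendsto_pow_atTop_nhds_zero_of_lt_one (by norm_num) (by norm_num)).const_mul _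
      rw [mul_zero] at this
      refine this.congr fun n => ?_
      rw [one_div_pow]; ring
    rw [mul_zero] at h2
    have h3 := ge_of_tendsto' h2 h1
    exact abs_eq_zero.1 (le_antisymm h3 (abs_nonneg _))
  -- conclusion
  apply hlim
  have h1 : ∀ j, ‖rr b f hf2 j‖ ^ 2 = inner ℝ (rr b f hf2 j) (hf2.toLp f) := by
    intro j
    rw [← real_inner_self_eq_norm_sq, inner_rr_rr hb hf2 (le_refl j), real_inner_comm]
  simp_rw [h1]
  rw [← hrf]
  exact hr.inner tendsto_const_nhds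

end

end Pool.Agent.H7.Div
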