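import Pool.Agent.H7.Div.Seq

set_option autoImplicit false

open Finset MeasureTheory

namespace Pool.Agent.H7.Div

/-- Lebesgue measure on `[0,1]` -/
noncomputable abbrev m01 : Measure ℝ := volume.restrict (Set.Icc (0 : ℝ) 1)

instance : IsProbabilityMeasure m01 := ⟨by simp⟩

lemma int_comm (F G : ℝ → ℝ) :
    ∫ t in Set.Icc (0 : ℝ) 1, F t * G t = ∫ t in Set.Icc (0 : ℝ) 1, G t * F t := by
  simp_rw [mul_comm]

lemma st_abs_le (n : ℕ) (A : ℕ → ℝ) {t : ℝ} (ht : t ≤ 1) : |st n A t| ≤ ∑ k ∈ range (2 ^ n + 1), |A k| := by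
  unfold st
  have h1 : ⌊(2 : ℝ) ^ n * t⌋₊ < 2 ^ n + 1 := by
    have : (2 : ℝ) ^ n * t ≤ 2 ^ n := by
      have : (0 : ℝ) < 2 ^ n := by positivity
      nlinarith
    have h2 := Nat.floor_le_floor this
    have h3 : ⌊(2 : ℝ) ^ n⌋₊ = 2 ^ n := by
      have : ((2 : ℝ) ^ n) = ((2 ^ n : ℕ) : ℝ) := by push_cast; rfl
      rw [this, Nat.floor_natCast]
    omega
  exact single_le_sum (f := fun k => |A k|) (fun _ _ => abs_nonneg _) (mem_range.2 h1)

lemma dy_meas {n : ℕ} {F : ℝ → ℝ} (hF : dy n F) : Measurable F := by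
  obtain ⟨A, rfl⟩ := hF; exact st_meas n A

lemma dy_bdd {n : ℕ} {F : ℝ → ℝ} (hF : dy n F) : ∃ C, ∀ t ≤ 1, |F t| ≤ C := by
  obtain ⟨A, rfl⟩ := hF
  exact ⟨_, fun t ht => st_abs_le n A ht⟩

lemma dy_memLp {n : ℕ} {F : ℝ → ℝ} (hF : dy n F) : MemLp F 2 m01 := by
  obtain ⟨C, hC⟩ := dy_bdd hF
  refine MemLp.of_bound (dy_meas hF).aestronglyMeasurable C ?_
  rw [ae_restrict_iff' measurableSet_Icc]
  exact Filter.Eventually.of_forall fun t ht => hC t ht.2

lemma dy_int {n : ℕ} {F : ℝ → ℝ} (hF : dy n F) : IntegrableOn F (Set.Icc 0 1) :=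
  (dy_memLp hF).integrable one_le_two

section params

variable {j : ℕ} {p : ℕ → Blk} {b : Blk} (hs : Spec j p b)
include hs

lemma K_pos : (0 : ℝ) < b.K := by
  have := hs.hK
  exact_mod_cast this

lemma N_eq : (b.N : ℝ) = 16 * b.K ^ 2 * 4 ^ (j + 2) := by
  rw [hs.hN]; push_cast; ring

lemma N_ge : 4 * (b.K : ℝ) ≤ b.N := by
  have hK := K_pos hs
  have hK1 : (1 : ℝ) ≤ b.K := by exact_mod_cast hs.hK
  rw [N_eq hs]
  have : (1 : ℝ) ≤ 4 ^ (j + 2) := one_le_pow₀ (by norm_num)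
  calc 4 * (b.K : ℝ) ≤ 16 * b.K ^ 2 * 1 := by nlinarith
    _ ≤ _ := mul_le_mul_of_nonneg_left this (by positivity)

lemma N_pos : (0 : ℝ) < b.N := by
  have := N_ge hs; have := K_pos hs; linarith

lemma c_nonneg : 0 ≤ b.c := by have := hs.hK; unfold Blk.c; positivity
lemma c_mul_N : b.c * b.N = 1 := by
  unfold Blk.c; have := N_pos hs; field_simp
lemma lam_pos : 0 < b.lam := by unfold Blk.lam; have := K_pos hs; positivity
lemma c_le : b.c ≤ 1 / (4 * b.K) := by
  unfold Blk.c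
  have := N_ge hs; have := K_pos hs
  exact one_div_le_one_div_of_le (by positivity) (N_ge hs)
lemma lam_add : b.lam + b.c ≤ 1 / 2 := by
  have h1 := c_le hs
  have h2 : (1 : ℝ) / (4 * b.K) ≤ 1 / 4 := by
    have hK1 : (1 : ℝ) ≤ b.K := by exact_mod_cast hs.hK
    exact one_div_le_one_div_of_le (by norm_num) (by linarith)
  unfold Blk.lam
  linarith

lemma mu_le : ∀ x, x < 2 ^ b.L → ∀ y, |mu b.N b.θ b.c b.lam x y| ≤ 1 / 2 := by
  intro x hx y
  unfold mu
  rw [abs_mul]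
  have h1 := hs.hθ x hx
  have h2 := walk_bound (lam := b.lam) (c_nonneg hs) b.N 0 y (by
    rw [abs_zero]; have := lam_pos hs; have := c_nonneg hs; linarith)
  rw [zero_add] at h2
  have h3 := c_le hs
  have hK := K_pos hs
  calc _ ≤ (b.K : ℝ) * (b.lam + b.c) := mul_le_mul h1 h2 (abs_nonneg _) hK.le
    _ ≤ b.K * (1 / (4 * b.K) + 1 / (4 * b.K)) := by
        refine mul_le_mul_of_nonneg_left ?_ hK.le
        unfold Blk.lam; linarith
    _ = 1 / 2 := by field_simp; norm_num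

lemma f_orth (i k : ℕ) (hi : i < b.D) (hk : k < b.D) :
    ∫ t in Set.Icc (0 : ℝ) 1, b.f i t * b.f k t = if i = k then (1 : ℝ) else 0 :=
  ps_orth (fun x hx y => (mu_le hs x hx y).trans (by norm_num)) i k hi hk

lemma f_abs (i : ℕ) {t : ℝ} (ht : t < 1) : |b.f i t| ≤ 2 ^ b.N * 2 := ps_bound (mu_le hs) i ht

/-- integrals against coarse dyadic functions -/
lemma f_coarse {F : ℝ → ℝ} (hF : dy b.L F) (i : ℕ) (hi : i < b.D) :
    ∫ t in Set.Icc (0 : ℝ) 1, F t * b.f i t =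
      (∫ t in Set.Icc (0 : ℝ) 1, F t * resid p j t) * b.cf i := by
  obtain ⟨B, rfl⟩ := hF
  rw [← hs.hres]
  exact ps_st B i hi

lemma cf_sq : ∑ i ∈ range b.D, b.cf i ^ 2 ≤ (1 / 4) ^ (j + 2) := by
  refine (g_sq b.N 0).trans ?_
  have h1 := c_mul_N hs
  have h2 : b.c ^ 2 * b.N = 1 / b.N := by
    have := N_pos hs
    unfold Blk.c; field_simp
  rw [h2, N_eq hs]
  have hK1 : (1 : ℝ) ≤ b.K := by exact_mod_cast hs.hK
  rw [one_div_pow]
  apply one_div_le_one_div_of_le (by positivity)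
  have : (1 : ℝ) ≤ 16 * b.K ^ 2 := by nlinarith
  have h4 : (0 : ℝ) < 4 ^ (j + 2) := by positivity
  nlinarith

lemma bad_le : volume (Set.Icc (0 : ℝ) 1 ∩ {t : ℝ | ¬ good b.L b.N b.c b.lam t}) ≤
    ENNReal.ofReal ((1 / 2) ^ j) := by
  refine (bad_small (lam_pos hs)).trans (ENNReal.ofReal_le_ofReal ?_)
  have hK := K_pos hs
  have h2 : b.c ^ 2 * b.N / b.lam ^ 2 = (1 / 4) ^ (j + 2) := by
    have hN := N_pos hs
    have e1 : b.c ^ 2 * b.N / b.lam ^ 2 = 16 * b.K ^ 2 / b.N := by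
      unfold Blk.c Blk.lam; field_simp; ring
    rw [e1, N_eq hs, one_div_pow]
    field_simp
  rw [h2]
  calc (1 / 4 : ℝ) ^ (j + 2) ≤ (1 / 4) ^ j := pow_le_pow_of_le_one (by norm_num) (by norm_num) (by omega)
    _ ≤ (1 / 2) ^ j := pow_le_pow_left₀ (by norm_num) (by norm_num) j

lemma peak {t : ℝ} (ht : t < 1) (hg : good b.L b.N b.c b.lam t) :
    ∃ m ≤ b.D, 1 / 12 ≤ |∑ i ∈ range m, b.cf i * b.f i t| :=
  ps_peak (c_nonneg hs) (c_mul_N hs) (lam_add hs) (lam_pos hs).le (mu_le hs) ht hg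

lemma cf_le (i : ℕ) (hi : i < b.D) : |b.cf i| ≤ 1 := by
  have h1 := single_le_sum (f := fun i => b.cf i ^ 2) (fun _ _ => sq_nonneg _) (mem_range.2 hi)
  have h2 := h1.trans (cf_sq hs)
  have h3 : (1 / 4 : ℝ) ^ (j + 2) ≤ 1 := pow_le_one₀ (by norm_num) (by norm_num)
  have h4 : b.cf i ^ 2 ≤ 1 := h2.trans h3
  exact abs_le_one_iff_mul_self_le_one.2 (by nlinarith)

end params

section seq

variable {b : ℕ → Blk} (hb : ∀ j, Spec j b (b j))
include hb

lemma resid_dy (j : ℕ) : dy (b j).l (resid b j) := by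
  unfold resid
  apply dy_sub
  · exact dy_mono (hb j).hq ⟨fun k => if k = xx j then 1 else 0, rfl⟩
  · apply dy_sum
    intro i hi
    apply dy_sum
    intro k _
    exact dy_const_mul _ (dy_mono ((hb j).hl i (mem_range.1 hi)) (f_dy _ _))

lemma l_le_L (j : ℕ) : (b j).l ≤ (b j).L := by rw [(hb j).hL]; omega

/-- integral against the residual, in terms of earlier coefficients -/
lemma int_resid (j : ℕ) {F : ℝ → ℝ} (hF : MemLp F 2 m01) :
    ∫ t in Set.Icc (0 : ℝ) 1, F t * resid b j t = (∫ t in Set.Icc (0 : ℝ) 1, F t * e j t) -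
      ∑ i ∈ range j, ∑ k ∈ range (b i).D, (∫ s in Set.Icc (0 : ℝ) 1, e j s * (b i).f k s) *
        ∫ t in Set.Icc (0 : ℝ) 1, F t * (b i).f k t := by
  have hmul : ∀ {n : ℕ} {G : ℝ → ℝ}, dy n G → IntegrableOn (fun t => F t * G t) (Set.Icc 0 1) :=
    fun hG => MemLp.integrable_mul hF (dy_memLp hG)
  have he : dy (q j) (e j) := ⟨fun k => if k = xx j then 1 else 0, rfl⟩
  have h1 : ∀ t, F t * resid b j t = F t * e j t -
      ∑ i ∈ range j, ∑ k ∈ range (b i).D, (∫ s in Set.Icc (0 : ℝ) 1, e j s * (b i).f k s) *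
        (F t * (b i).f k t) := by
    intro t
    unfold resid
    rw [mul_sub, mul_sum]
    congr 1
    refine sum_congr rfl fun i _ => ?_
    rw [mul_sum]
    exact sum_congr rfl fun k _ => by ring
  simp_rw [h1]
  have hI : ∀ i k, IntegrableOn (fun t => (∫ s in Set.Icc (0 : ℝ) 1, e j s * (b i).f k s) *
      (F t * (b i).f k t)) (Set.Icc 0 1) := fun i k => (hmul (f_dy (b i) k)).const_mul _
  have hI2 : ∀ i, IntegrableOn (fun t => ∑ k ∈ range (b i).D,
      (∫ s in Set.Icc (0 : ℝ) 1, e j s * (b i).f k s) * (F t * (b i).f k t)) (Set.Icc 0 1) :=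
    fun i => integrable_finsetSum _ fun k _ => hI i k
  have hI3 : IntegrableOn (fun t => ∑ i ∈ range j, ∑ k ∈ range (b i).D,
      (∫ s in Set.Icc (0 : ℝ) 1, e j s * (b i).f k s) * (F t * (b i).f k t)) (Set.Icc 0 1) :=
    integrable_finsetSum _ fun i _ => hI2 i
  rw [integral_sub (hmul he) hI3, integral_finsetSum _ (fun i _ => hI2 i)]
  congr 1
  refine sum_congr rfl fun i _ => ?_
  rw [integral_finsetSum _ (fun k _ => hI i k)]
  refine sum_congr rfl fun k _ => ?_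
  exact integral_const_mul _ _

lemma cross (j : ℕ) : ∀ i, i < j → ∀ k k', k < (b i).D → k' < (b j).D →
    ∫ t in Set.Icc (0 : ℝ) 1, (b i).f k t * (b j).f k' t = 0 := by
  induction j using Nat.strong_induction_on with
  | _ j ih =>
    intro i hij k k' hk hk'
    have h1 : dy (b j).L ((b i).f k) :=
      dy_mono (((hb j).hl i hij).trans (l_le_L hb j)) (f_dy _ _)
    rw [f_coarse (hb j) h1 k' hk', int_resid hb j (dy_memLp (f_dy (b i) k))]
    have h2 : ∑ i' ∈ range j, ∑ k'' ∈ range (b i').D, (∫ s in Set.Icc (0 : ℝ) 1, e j s * (b i').f k'' s) *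
        ∫ t in Set.Icc (0 : ℝ) 1, (b i).f k t * (b i').f k'' t =
        ∫ s in Set.Icc (0 : ℝ) 1, e j s * (b i).f k s := by
      rw [sum_eq_single_of_mem i (mem_range.2 hij)]
      · rw [sum_eq_single_of_mem k (mem_range.2 hk)]
        · rw [f_orth (hb i) k k hk hk, if_pos rfl, mul_one]
        · intro k'' hk'' hne
          rw [f_orth (hb i) k k'' hk (mem_range.1 hk''), if_neg (Ne.symm hne), mul_zero]
      · intro i' hi' hne
        refine sum_eq_zero fun k'' hk'' => ?_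
        rcases lt_or_gt_of_ne hne with h | h
        · have := ih i hij i' h k'' k (mem_range.1 hk'') hk
          rw [int_comm ((b i).f k), this, mul_zero]
        · have := ih i' (mem_range.1 hi') i h k k'' hk (mem_range.1 hk'')
          rw [this, mul_zero]
    rw [h2, int_comm (e j), sub_self, zero_mul]

lemma orth_all (i j k k' : ℕ) (hk : k < (b i).D) (hk' : k' < (b j).D) :
    ∫ t in Set.Icc (0 : ℝ) 1, (b i).f k t * (b j).f k' t = if i = j ∧ k = k' then (1 : ℝ) else 0 := by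
  rcases lt_trichotomy i j with h | h | h
  · rw [cross hb j i h k k' hk hk', if_neg (fun h' => by omega)]
  · subst h
    rw [f_orth (hb i) k k' hk hk']
    by_cases hkk : k = k'
    · rw [if_pos hkk, if_pos ⟨rfl, hkk⟩]
    · rw [if_neg hkk, if_neg (fun h' => hkk h'.2)]
  · have := cross hb i j h k' k hk' hk
    rw [if_neg (fun h' => by omega), int_comm, this]

end seq

end Pool.Agent.H7.Div
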