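import Pool.Agent.H7.Div.Limit

set_option autoImplicit false

open Finset MeasureTheory Filter Topology
open scoped InnerProductSpace

namespace Pool.Agent.H7.Div

section

variable {b : ℕ → Blk} (hb : ∀ j, Spec j b (b j)) {f : ℝ → ℝ} (hf2 : MemLp f 2 m01) {m : ℝ}
  (hm : 0 ≤ m) (hf : ∀ s ∈ Set.Icc (0 : ℝ) 1, ∀ t ∈ Set.Icc (0 : ℝ) 1, |f s - f t| ≤ m * |s - t|)

include hb in
/-- almost every point is good for all large blocks -/
lemma ae_good : ∀ᵐ t ∂m01, ∀ᶠ j in atTop, good (b j).L (b j).N (b j).c (b j).lam t := by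
  have h1 : ∑' j, m01 {t : ℝ | ¬ good (b j).L (b j).N (b j).c (b j).lam t} ≠ ⊤ := by
    have h2 : ∀ j, m01 {t : ℝ | ¬ good (b j).L (b j).N (b j).c (b j).lam t} ≤ ENNReal.ofReal ((1 / 2) ^ j) := by
      intro j
      have hms : MeasurableSet {t : ℝ | ¬ good (b j).L (b j).N (b j).c (b j).lam t} := (good_meas _ _ _ _).compl
      rw [Measure.restrict_apply hms, Set.inter_comm]
      exact bad_le (hb j)
    refine ne_top_of_le_ne_top ?_ (ENNReal.tsum_le_tsum h2)
    exact (summable_geometric_of_lt_one (by norm_num) (by norm_num)).tsum_ofReal_ne_top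
  filter_upwards [ae_eventually_notMem h1] with t ht
  filter_upwards [ht] with j hj
  simpa using hj

lemma de_le (b : ℕ → Blk) (j : ℕ) : de b j ≤ (1 / 2) ^ j := by
  unfold de
  exact pow_le_pow_of_le_one (by norm_num) (by norm_num) (by omega)

include hb hf2 hm hf in
/-- oscillation of the partial sums inside the blocks -/
lemma osc {κ : ℝ} (hκ : 0 < κ) (hal : ∀ J, ∃ j, J ≤ j ∧ κ ≤ |al b f j|) :
    ∀ᵐ t ∂m01, ∀ J, ∃ j, J ≤ j ∧ ∃ n ≤ (b j).D, κ / 24 ≤ |∑ k ∈ range n, co b f j k * (b j).f k t| := by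
  filter_upwards [ae_good hb, ae_lt_one] with t ht ht1 J
  have h1 : Tendsto (fun j : ℕ => m * (1 / 2 : ℝ) ^ j) atTop (𝓝 (m * 0)) :=
    (tendsto_pow_atTop_nhds_zero_of_lt_one (by norm_num) (by norm_num)).const_mul _
  rw [mul_zero] at h1
  have h2 : ∀ᶠ j in atTop, m * (1 / 2 : ℝ) ^ j < κ / 24 := h1.eventually_lt_const (by positivity)
  obtain ⟨J1, hJ1⟩ := eventually_atTop.1 (ht.and h2)
  obtain ⟨j, hj, hal⟩ := hal (max J J1)
  obtain ⟨hg, hsm⟩ := hJ1 j ((le_max_right _ _).trans hj)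
  refine ⟨j, (le_max_left _ _).trans hj, ?_⟩
  obtain ⟨n, hn, hpk⟩ := peak (hb j) ht1.2 hg
  refine ⟨n, hn, ?_⟩
  have e1 : ∑ k ∈ range n, co b f j k * (b j).f k t =
      al b f j * ∑ k ∈ range n, (b j).cf k * (b j).f k t +
        ∑ k ∈ range n, (co b f j k - al b f j * (b j).cf k) * (b j).f k t := by
    rw [mul_sum, ← sum_add_distrib]
    exact sum_congr rfl fun k _ => by ring
  have e2 : |∑ k ∈ range n, (co b f j k - al b f j * (b j).cf k) * (b j).f k t| ≤ m * de b j := by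
    refine (abs_sum_le_sum_abs _ _).trans ?_
    have h3 : ∀ k ∈ range n, |(co b f j k - al b f j * (b j).cf k) * (b j).f k t| ≤
        m * et b j * (2 ^ (b j).N * 2) := by
      intro k hk
      rw [abs_mul]
      exact mul_le_mul (co_close hb hf2 hm hf j k (lt_of_lt_of_le (mem_range.1 hk) hn)) (f_abs (hb j) k ht1.2)
        (abs_nonneg _) (mul_nonneg hm (et_pos b j).le)
    refine (sum_le_sum h3).trans ?_
    rw [sum_const, card_range, nsmul_eq_mul, ← et_de hb j]
    have h4 : (n : ℝ) ≤ 2 ^ (b j).N := by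
      have : (n : ℝ) ≤ ((b j).D : ℝ) := by exact_mod_cast hn
      exact this.trans (D_le _)
    calc (n : ℝ) * (m * et b j * (2 ^ (b j).N * 2)) ≤ 2 ^ (b j).N * (m * et b j * (2 ^ (b j).N * 2)) :=
          mul_le_mul_of_nonneg_right h4 (mul_nonneg (mul_nonneg hm (et_pos b j).le) (by positivity))
      _ = _ := by ring
  have e3 : m * de b j ≤ m * (1 / 2) ^ j := mul_le_mul_of_nonneg_left (de_le b j) hm
  rw [e1]
  have h5 := abs_sub_abs_le_abs_sub (al b f j * ∑ k ∈ range n, (b j).cf k * (b j).f k t)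
    (-∑ k ∈ range n, (co b f j k - al b f j * (b j).cf k) * (b j).f k t)
  rw [abs_neg, sub_neg_eq_add, abs_mul] at h5
  have h6 : κ * (1 / 12) ≤ |al b f j| * |∑ k ∈ range n, (b j).cf k * (b j).f k t| :=
    mul_le_mul hal hpk (by norm_num) (abs_nonneg _)
  linarith

omit hf in
include hb hf2 in
/-- constant case -/
lemma not_small_const {a : ℝ} (ha : a ≠ 0) (hc : ∀ t ∈ Set.Icc (0 : ℝ) 1, f t = a)
    (hlim : Tendsto (fun j => ‖rr b f hf2 j‖ ^ 2) atTop (𝓝 0)) : False := by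
  have hf0 : ∀ s ∈ Set.Icc (0 : ℝ) 1, ∀ t ∈ Set.Icc (0 : ℝ) 1, |f s - f t| ≤ 0 * |s - t| := by
    intro s hs t ht
    rw [hc s hs, hc t ht]; simp
  have h1 : ∀ n, ‖rr b f hf2 0‖ ^ 2 * (1 / 2) ≤ ‖rr b f hf2 n‖ ^ 2 := by
    intro n
    have h2 := tail_loss hb hf2 le_rfl hf0 0 n
    rw [zero_add] at h2
    have h3 : (0 : ℝ) ≤ (1 / 4) ^ n := by positivity
    nlinarith [mul_nonneg (sq_nonneg ‖rr b f hf2 0‖) h3]
  have h2 := ge_of_tendsto' hlim h1
  have h3 : ‖rr b f hf2 0‖ ^ 2 = a * a := by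
    rw [← real_inner_self_eq_norm_sq]
    have : rr b f hf2 0 = hf2.toLp f := by unfold rr; simp
    rw [this, inner_toLp]
    have h4 : ∫ t in Set.Icc (0 : ℝ) 1, f t * f t = ∫ t in Set.Icc (0 : ℝ) 1, a * a := by
      apply setIntegral_congr_fun measurableSet_Icc
      intro t ht
      simp only [hc t ht]
    rw [h4]
    simp
  rw [h3] at h2
  have : 0 < a * a := mul_self_pos.2 ha
  linarith

end

/-- analytic functions on the unit interval are square integrable and Lipschitz -/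
lemma an_basic {f : ℝ → ℝ} (hf : AnalyticOnNhd ℝ f (Set.Icc (0 : ℝ) 1)) :
    MemLp f 2 m01 ∧ ∃ m : ℝ, 0 ≤ m ∧ ∀ s ∈ Set.Icc (0 : ℝ) 1, ∀ t ∈ Set.Icc (0 : ℝ) 1, |f s - f t| ≤ m * |s - t| := by
  have hcont : ContinuousOn f (Set.Icc 0 1) := hf.continuousOn
  constructor
  · obtain ⟨C, hC⟩ := isCompact_Icc.exists_bound_of_continuousOn hcont
    refine MemLp.of_bound (hcont.aestronglyMeasurable measurableSet_Icc) C ?_
    rw [ae_restrict_iff' measurableSet_Icc]
    exact Eventually.of_forall fun t ht => hC t ht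
  · obtain ⟨C, hC⟩ := isCompact_Icc.exists_bound_of_continuousOn hf.deriv.continuousOn
    refine ⟨max C 0, le_max_right _ _, fun s hs t ht => ?_⟩
    have := Convex.norm_image_sub_le_of_norm_deriv_le (f := f) (C := max C 0) (s := Set.Icc (0 : ℝ) 1)
      (fun x hx => (hf x hx).differentiableAt) (fun x hx => (hC x hx).trans (le_max_left _ _))
      (convex_Icc 0 1) ht hs
    simpa [Real.norm_eq_abs] using this

/-- main pointwise statement -/
theorem diverge {b : ℕ → Blk} (hb : ∀ j, Spec j b (b j)) {f : ℝ → ℝ} (hf : AnalyticOnNhd ℝ f (Set.Icc (0 : ℝ) 1))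
    (hne : ∃ x ∈ Set.Icc (0 : ℝ) 1, f x ≠ 0) : ∃ κ : ℝ, 0 < κ ∧
    ∀ᵐ t ∂m01, ∀ J, ∃ j, J ≤ j ∧ ∃ n ≤ (b j).D, κ ≤ |∑ k ∈ range n, co b f j k * (b j).f k t| := by
  obtain ⟨hf2, m, hm, hL⟩ := an_basic hf
  have hnot : ¬ Tendsto (fun j => ‖rr b f hf2 j‖ ^ 2) atTop (𝓝 0) := by
    intro hlim
    by_cases hder : ∃ t0 ∈ Set.Ioo (0 : ℝ) 1, deriv f t0 ≠ 0
    · obtain ⟨t0, ht0, hd0⟩ := hder
      have h1 : HasDerivAt f (deriv f t0) t0 := (hf t0 ⟨ht0.1.le, ht0.2.le⟩).differentiableAt.hasDerivAt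
      have h2 := (hasDerivAt_iff_isLittleO.1 h1).def (show 0 < |deriv f t0| / 8 by positivity)
      rw [Metric.eventually_nhds_iff] at h2
      obtain ⟨ε, hε, h3⟩ := h2
      refine not_small hb hf2 hm hL ht0.1 ht0.2 hε hd0 (fun t ht => ?_) hlim
      have := h3 (y := t) (by rwa [Real.dist_eq])
      rw [Real.norm_eq_abs, Real.norm_eq_abs, smul_eq_mul] at this
      rw [mul_comm (deriv f t0)]
      exact this
    · push Not at hder
      obtain ⟨x, hx, hfx⟩ := hne
      have hconst : ∀ s ∈ Set.Icc (0 : ℝ) 1, ∀ t ∈ Set.Icc (0 : ℝ) 1, s < t → f s = f t := by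
        intro s hs t ht hst
        obtain ⟨c, hc, hc2⟩ := exists_deriv_eq_slope f hst
          (hf.continuousOn.mono (Set.Icc_subset_Icc hs.1 ht.2))
          (fun y hy => (hf y ⟨hs.1.trans hy.1.le, hy.2.le.trans ht.2⟩).differentiableAt.differentiableWithinAt)
        have h4 := hder c ⟨lt_of_le_of_lt hs.1 hc.1, lt_of_lt_of_le hc.2 ht.2⟩
        rw [h4] at hc2
        have h5 : t - s ≠ 0 := by linarith
        have h6 : f t - f s = 0 := by
          have := hc2.symm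
          rw [div_eq_zero_iff] at this
          rcases this with h | h
          · exact h
          · exact absurd h h5
        linarith
      refine not_small_const hb hf2 hfx (fun t ht => ?_) hlim
      rcases lt_trichotomy t x with h | h | h
      · exact hconst t ht x hx h
      · rw [h]
      · exact (hconst x hx t ht h).symm
  obtain ⟨κ, hκ, hal⟩ := al_large hb hf2 hm hL hnot
  exact ⟨κ / 24, by positivity, osc hb hf2 hm hL hκ hal⟩

end Pool.Agent.H7.Div
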