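import Pool.Agent.H7.Div.Step

set_option autoImplicit false

open Finset MeasureTheory

namespace Pool.Agent.H7.Div

/-- dyadic at scale `n` -/
def dy (n : ℕ) (F : ℝ → ℝ) : Prop := ∃ A : ℕ → ℝ, F = st n A

lemma dy_mono {n m : ℕ} (h : n ≤ m) {F : ℝ → ℝ} (hF : dy n F) : dy m F := by
  obtain ⟨A, rfl⟩ := hF
  obtain ⟨k, rfl⟩ := Nat.exists_eq_add_of_le h
  exact ⟨_, st_refine n k A⟩

lemma dy_sub {n : ℕ} {F G : ℝ → ℝ} (hF : dy n F) (hG : dy n G) : dy n (fun t => F t - G t) := by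
  obtain ⟨A, rfl⟩ := hF
  obtain ⟨B, rfl⟩ := hG
  exact ⟨fun k => A k - B k, rfl⟩

lemma dy_mul {n : ℕ} {F G : ℝ → ℝ} (hF : dy n F) (hG : dy n G) : dy n (fun t => F t * G t) := by
  obtain ⟨A, rfl⟩ := hF
  obtain ⟨B, rfl⟩ := hG
  exact ⟨fun k => A k * B k, rfl⟩

lemma dy_const_mul {n : ℕ} {F : ℝ → ℝ} (a : ℝ) (hF : dy n F) : dy n (fun t => a * F t) := by
  obtain ⟨A, rfl⟩ := hF
  exact ⟨fun k => a * A k, rfl⟩

lemma dy_sum {n : ℕ} (s : Finset ℕ) (F : ℕ → ℝ → ℝ) (hF : ∀ i ∈ s, dy n (F i)) :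
    dy n (fun t => ∑ i ∈ s, F i t) := by
  classical
  induction s using Finset.induction_on with
  | empty => exact ⟨fun _ => 0, by funext t; simp [st]⟩
  | insert a s ha ih =>
    obtain ⟨A, hA⟩ := hF a (mem_insert_self a s)
    obtain ⟨B, hB⟩ := ih fun i hi => hF i (mem_insert_of_mem hi)
    refine ⟨fun k => A k + B k, ?_⟩
    funext t
    rw [sum_insert ha, hA]
    have := congrFun hB t
    rw [this]; rfl

/-- data of a block -/
structure Blk where
  l : ℕ
  L : ℕ
  N : ℕ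
  K : ℕ
  θ : ℕ → ℝ

namespace Blk
/-- step size -/
noncomputable def c (b : Blk) : ℝ := 1 / b.N
/-- threshold -/
noncomputable def lam (b : Blk) : ℝ := 1 / (4 * b.K)
/-- block functions -/
noncomputable def f (b : Blk) (i : ℕ) : ℝ → ℝ := ps b.L b.N b.θ b.c b.lam i
/-- scale of the block -/
def sc (b : Blk) : ℕ := b.L + b.N + 1
/-- number of functions -/
def D (b : Blk) : ℕ := d b.N
/-- coefficients -/
noncomputable def cf (b : Blk) (i : ℕ) : ℝ := g b.c b.lam b.N 0 i
end Blk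

/-- scale of the `j`-th test interval -/
def q (j : ℕ) : ℕ := (Nat.unpair (Nat.unpair j).1).1
/-- position of the `j`-th test interval -/
def xx (j : ℕ) : ℕ := (Nat.unpair (Nat.unpair j).1).2

/-- indicator of a dyadic interval -/
noncomputable def eI (n x : ℕ) : ℝ → ℝ := st n (fun k => if k = x then 1 else 0)

/-- test functions -/
noncomputable def e (j : ℕ) : ℝ → ℝ := eI (q j) (xx j)

/-- residual of the test function -/
noncomputable def resid (prev : ℕ → Blk) (j : ℕ) (t : ℝ) : ℝ :=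
  e j t - ∑ i ∈ range j, ∑ k ∈ range (prev i).D,
    (∫ s in Set.Icc (0 : ℝ) 1, e j s * (prev i).f k s) * (prev i).f k t

/-- specification of the `j`-th block -/
structure Spec (j : ℕ) (prev : ℕ → Blk) (b : Blk) : Prop where
  hK : 1 ≤ b.K
  hN : b.N = 16 * b.K ^ 2 * 4 ^ (j + 2)
  hθ : ∀ x, x < 2 ^ b.L → |b.θ x| ≤ b.K
  hres : st b.L b.θ = resid prev j
  hl : ∀ i, i < j → (prev i).sc ≤ b.l
  hq : q j ≤ b.l
  hL : b.L = 2 * b.l + 2 * j + 3 * b.N + b.K + 4

lemma spec_congr {j : ℕ} {p p' : ℕ → Blk} {b : Blk} (h : ∀ i, i < j → p i = p' i)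
    (hs : Spec j p b) : Spec j p' b := by
  refine ⟨hs.hK, hs.hN, hs.hθ, ?_, fun i hi => by rw [← h i hi]; exact hs.hl i hi, hs.hq, hs.hL⟩
  rw [hs.hres]
  funext t
  unfold resid
  congr 1
  refine sum_congr rfl fun i hi => ?_
  rw [h i (mem_range.1 hi)]

lemma f_dy (b : Blk) (i : ℕ) : dy b.sc (b.f i) := ⟨_, rfl⟩

lemma exists_blk (j : ℕ) (prev : ℕ → Blk) : ∃ b, Spec j prev b := by
  set l := q j + ∑ i ∈ range j, (prev i).sc with hl
  have h1 : ∀ i, i < j → (prev i).sc ≤ l := by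
    intro i hi
    have := single_le_sum (f := fun i => (prev i).sc) (fun _ _ => Nat.zero_le _) (mem_range.2 hi)
    omega
  have h2 : q j ≤ l := by omega
  have h3 : dy l (resid prev j) := by
    unfold resid
    apply dy_sub
    · exact dy_mono h2 ⟨fun k => if k = xx j then 1 else 0, rfl⟩
    · apply dy_sum
      intro i hi
      apply dy_sum
      intro k _
      exact dy_const_mul _ (dy_mono (h1 i (mem_range.1 hi)) (f_dy _ _))
  obtain ⟨A, hA⟩ := h3
  set K := ⌈∑ k ∈ range (2 ^ l), |A k|⌉₊ + 1 with hK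
  set N := 16 * K ^ 2 * 4 ^ (j + 2) with hN
  refine ⟨⟨l, 2 * l + 2 * j + 3 * N + K + 4, N, K,
    fun x => A (x / 2 ^ (l + 2 * j + 3 * N + K + 4))⟩, ⟨Nat.le_add_left 1 _, rfl, ?_, ?_, h1, h2, rfl⟩⟩
  · intro x hx
    simp only at hx ⊢
    have h4 : x / 2 ^ (l + 2 * j + 3 * N + K + 4) < 2 ^ l := by
      rw [Nat.div_lt_iff_lt_mul (by positivity), ← pow_add]
      convert hx using 2
      ring
    have h5 := single_le_sum (f := fun k => |A k|) (fun _ _ => abs_nonneg _) (mem_range.2 h4)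
    have h6 := Nat.le_ceil (∑ k ∈ range (2 ^ l), |A k|)
    rw [hK]
    push_cast
    linarith
  · simp only
    rw [hA, st_refine l (l + 2 * j + 3 * N + K + 4)]
    congr 1
    ring

/-- the sequence of blocks -/
theorem exists_seq : ∃ b : ℕ → Blk, ∀ j, Spec j b (b j) := by
  classical
  choose nb hnb using exists_blk
  let s : ℕ → (ℕ → Blk) := fun j => Nat.rec (fun _ => nb 0 (fun _ => ⟨0, 0, 0, 0, fun _ => 0⟩))
    (fun j sj => Function.update sj j (nb j sj)) j
  have hs : ∀ j, s (j + 1) = Function.update (s j) j (nb j (s j)) := fun j => rfl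
  set b : ℕ → Blk := fun j => s (j + 1) j with hb
  have hbj : ∀ j, b j = nb j (s j) := by
    intro j; rw [hb]; simp only; rw [hs]; simp
  have hagree : ∀ j i, i < j → s j i = b i := by
    intro j
    induction j with
    | zero => intro i hi; omega
    | succ j ih =>
      intro i hi
      rcases Nat.lt_succ_iff_lt_or_eq.1 hi with h | h
      · rw [hs, Function.update_of_ne (by omega), ih i h]
      · subst h; rfl
  refine ⟨b, fun j => ?_⟩
  rw [hbj j]
  exact spec_congr (hagree j) (hnb j (s j))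

end Pool.Agent.H7.Div
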