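import Pool.Agent.H7.Div.Haar

set_option autoImplicit false

open Finset MeasureTheory

namespace Pool.Agent.H7.Div

/-- dyadic step function of scale `n` -/
noncomputable def st (n : ℕ) (A : ℕ → ℝ) (t : ℝ) : ℝ := A ⌊(2 : ℝ) ^ n * t⌋₊

lemma st_meas (n : ℕ) (A : ℕ → ℝ) : Measurable (st n A) := by
  unfold st
  have h1 : Measurable fun t : ℝ => ⌊(2 : ℝ) ^ n * t⌋₊ := Nat.measurable_floor.comp (measurable_const_mul _)
  exact (measurable_of_countable A).comp h1

/-- refinement of the scale -/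
lemma st_refine (n m : ℕ) (A : ℕ → ℝ) : st n A = st (n + m) (fun k => A (k / 2 ^ m)) := by
  funext t
  unfold st
  congr 1
  have h1 : (2 : ℝ) ^ n * t = ((2 : ℝ) ^ (n + m) * t) / ((2 ^ m : ℕ) : ℝ) := by
    push_cast
    rw [pow_add]
    field_simp
  rw [h1, Nat.floor_div_natCast]

lemma floor_lt {n : ℕ} {t : ℝ} (ht : t < 1) : ⌊(2 : ℝ) ^ n * t⌋₊ < 2 ^ n := by
  rw [Nat.floor_lt' (by positivity)]
  push_cast
  have : (0 : ℝ) < 2 ^ n := by positivity
  nlinarith

lemma ii_st (n : ℕ) (A : ℕ → ℝ) (k : ℕ) :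
    IntervalIntegrable (st n A) volume ((k : ℝ) / 2 ^ n) (((k + 1 : ℕ) : ℝ) / 2 ^ n) ∧
      ∫ t in ((k : ℝ) / 2 ^ n)..(((k + 1 : ℕ) : ℝ) / 2 ^ n), st n A t = A k / 2 ^ n := by
  have h2 : (0 : ℝ) < 2 ^ n := by positivity
  have hle : (k : ℝ) / 2 ^ n ≤ ((k + 1 : ℕ) : ℝ) / 2 ^ n := by
    apply div_le_div_of_nonneg_right _ h2.le
    push_cast; linarith
  have hae : ∀ᵐ t ∂(volume : Measure ℝ), t ∈ Set.uIoc ((k : ℝ) / 2 ^ n) (((k + 1 : ℕ) : ℝ) / 2 ^ n) →
      st n A t = A k := by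
    have hne : ∀ᵐ t ∂(volume : Measure ℝ), t ≠ ((k + 1 : ℕ) : ℝ) / 2 ^ n := by
      rw [ae_iff]; simp
    filter_upwards [hne] with t ht hmem
    rw [Set.uIoc_of_le hle] at hmem
    have h3 : t < ((k + 1 : ℕ) : ℝ) / 2 ^ n := lt_of_le_of_ne hmem.2 ht
    unfold st
    congr 1
    rw [Nat.floor_eq_iff (by
      have : (0 : ℝ) ≤ (k : ℝ) / 2 ^ n := by positivity
      have : 0 ≤ t := this.trans hmem.1.le
      positivity)]
    constructor
    · have := hmem.1
      rw [div_lt_iff₀ h2] at this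
      linarith
    · rw [lt_div_iff₀ h2] at h3
      push_cast at h3
      linarith
  constructor
  · have hi : IntervalIntegrable (fun _ : ℝ => A k) volume ((k : ℝ) / 2 ^ n) (((k + 1 : ℕ) : ℝ) / 2 ^ n) :=
      intervalIntegrable_const
    refine hi.congr_ae ?_
    rw [Filter.EventuallyEq, ae_restrict_iff' measurableSet_uIoc]
    filter_upwards [hae] with t ht hmem
    exact (ht hmem).symm
  · rw [intervalIntegral.integral_congr_ae hae, intervalIntegral.integral_const, smul_eq_mul]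
    push_cast
    field_simp
    ring

/-- integral of a step function -/
lemma int_st (n : ℕ) (A : ℕ → ℝ) :
    ∫ t in Set.Icc (0 : ℝ) 1, st n A t = (∑ k ∈ range (2 ^ n), A k) / 2 ^ n := by
  rw [integral_Icc_eq_integral_Ioc, ← intervalIntegral.integral_of_le zero_le_one]
  have h := intervalIntegral.sum_integral_adjacent_intervals (f := st n A) (μ := volume)
    (a := fun k : ℕ => (k : ℝ) / 2 ^ n) (n := 2 ^ n) (fun k _ => (ii_st n A k).1)
  simp only [Nat.cast_zero, zero_div] at h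
  have h1 : (((2 ^ n : ℕ) : ℝ)) / 2 ^ n = 1 := by push_cast; field_simp
  rw [h1] at h
  rw [← h, sum_div]
  exact sum_congr rfl fun k _ => (ii_st n A k).2

lemma sum_divmod (a b : ℕ) (hb : 0 < b) (F : ℕ → ℕ → ℝ) :
    ∑ k ∈ range (a * b), F (k / b) (k % b) = ∑ x ∈ range a, ∑ y ∈ range b, F x y := by
  induction a with
  | zero => simp
  | succ a ih =>
    rw [Nat.succ_mul, sum_range_add, ih, sum_range_succ]
    congr 1
    refine sum_congr rfl fun y hy => ?_
    have hy' := mem_range.1 hy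
    rw [show a * b + y = y + b * a by ring, Nat.add_mul_div_left _ _ hb, Nat.div_eq_of_lt hy',
      Nat.add_mul_mod_self_left, Nat.mod_eq_of_lt hy', zero_add]

/-- triple sum -/
lemma sum_triple (L N : ℕ) (Q : ℕ → ℕ → ℕ → ℝ) :
    ∑ k ∈ range (2 ^ (L + N + 1)), Q (k / 2 / 2 ^ N) (k / 2 % 2 ^ N) (k % 2) =
      ∑ x ∈ range (2 ^ L), ∑ y ∈ range (2 ^ N), (Q x y 0 + Q x y 1) := by
  rw [pow_succ, sum_divmod (2 ^ (L + N)) 2 (by norm_num) (fun j z => Q (j / 2 ^ N) (j % 2 ^ N) z)]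
  simp_rw [sum_range_succ, sum_range_zero, zero_add]
  rw [pow_add, sum_divmod (2 ^ L) (2 ^ N) (by positivity) (fun x y => Q x y 0 + Q x y 1)]

section block

variable (L N : ℕ) (θ : ℕ → ℝ) (c lam : ℝ)

/-- local mean of the modulating function -/
noncomputable def mu (x y : ℕ) : ℝ := θ x * Gr c lam N 0 y

/-- modulating function -/
noncomputable def RR (x y z : ℕ) : ℝ :=
  mu N θ c lam x y + Real.sqrt (1 - mu N θ c lam x y ^ 2) * (if z = 0 then 1 else -1)

/-- block function as a function on the dyadic points -/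
noncomputable def psN (i k : ℕ) : ℝ :=
  u N i (k / 2 % 2 ^ N) * RR N θ c lam (k / 2 / 2 ^ N) (k / 2 % 2 ^ N) (k % 2)

/-- block function -/
noncomputable def ps (i : ℕ) : ℝ → ℝ := st (L + N + 1) (psN N θ c lam i)

variable {L N θ c lam}

lemma RR_sum (x y : ℕ) : RR N θ c lam x y 0 + RR N θ c lam x y 1 = 2 * mu N θ c lam x y := by
  unfold RR; simp; ring

lemma RR_sq {x y : ℕ} (h : |mu N θ c lam x y| ≤ 1) :
    RR N θ c lam x y 0 ^ 2 + RR N θ c lam x y 1 ^ 2 = 2 := by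
  have h1 : mu N θ c lam x y ^ 2 ≤ 1 := by
    rw [← sq_abs]; exact pow_le_one₀ (abs_nonneg _) h
  have h2 : Real.sqrt (1 - mu N θ c lam x y ^ 2) ^ 2 = 1 - mu N θ c lam x y ^ 2 :=
    Real.sq_sqrt (by linarith)
  unfold RR
  simp only [if_true, one_ne_zero, if_false]
  nlinarith

/-- orthonormality within a block -/
lemma ps_orth (hmu : ∀ x, x < 2 ^ L → ∀ y, |mu N θ c lam x y| ≤ 1) (i j : ℕ) (hi : i < d N) (hj : j < d N) :
    ∫ t in Set.Icc (0 : ℝ) 1, ps L N θ c lam i t * ps L N θ c lam j t = if i = j then (1 : ℝ) else 0 := by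
  have h1 : (fun t => ps L N θ c lam i t * ps L N θ c lam j t) =
      st (L + N + 1) (fun k => psN N θ c lam i k * psN N θ c lam j k) := rfl
  rw [h1, int_st]
  have h2 : ∑ k ∈ range (2 ^ (L + N + 1)), psN N θ c lam i k * psN N θ c lam j k =
      ∑ x ∈ range (2 ^ L), ∑ y ∈ range (2 ^ N), 2 * (u N i y * u N j y) := by
    refine (sum_triple L N (fun x y z => (u N i y * RR N θ c lam x y z) *
      (u N j y * RR N θ c lam x y z))).trans ?_
    refine sum_congr rfl fun x hx => sum_congr rfl fun y _ => ?_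
    have h3 := RR_sq (hmu x (mem_range.1 hx) y)
    calc _ = (u N i y * u N j y) * (RR N θ c lam x y 0 ^ 2 + RR N θ c lam x y 1 ^ 2) := by ring
      _ = _ := by rw [h3]; ring
  rw [h2]
  have h4 : ∑ y ∈ range (2 ^ N), 2 * (u N i y * u N j y) = 2 * (if i = j then (2 : ℝ) ^ N else 0) := by
    rw [← mul_sum, u_orth N i j hi hj]
  rw [h4, sum_const, card_range, nsmul_eq_mul]
  push_cast
  have h5 : (2 : ℝ) ^ (L + N + 1) = 2 ^ L * 2 ^ N * 2 := by rw [pow_succ, pow_add]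
  rw [h5]
  split_ifs
  · field_simp
  · simp

/-- inner products with coarse step functions -/
lemma ps_st (B : ℕ → ℝ) (i : ℕ) (hi : i < d N) :
    ∫ t in Set.Icc (0 : ℝ) 1, st L B t * ps L N θ c lam i t =
      (∫ t in Set.Icc (0 : ℝ) 1, st L B t * st L θ t) * g c lam N 0 i := by
  have h0 : st L B = st (L + N + 1) (fun k => B (k / 2 / 2 ^ N)) := by
    rw [add_assoc, st_refine L (N + 1)]
    congr 1
    funext k
    rw [Nat.div_div_eq_div_mul, pow_succ, mul_comm]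
  have h1 : (fun t => st L B t * ps L N θ c lam i t) =
      st (L + N + 1) (fun k => B (k / 2 / 2 ^ N) * psN N θ c lam i k) := by
    funext t
    rw [h0]; rfl
  have h1' : (fun t => st L B t * st L θ t) = st L (fun k => B k * θ k) := rfl
  rw [h1, int_st, h1', int_st]
  have h2 : ∑ k ∈ range (2 ^ (L + N + 1)), B (k / 2 / 2 ^ N) * psN N θ c lam i k =
      ∑ x ∈ range (2 ^ L), ∑ y ∈ range (2 ^ N), (2 * (B x * θ x)) * (u N i y * Gr c lam N 0 y) := by
    refine (sum_triple L N (fun x y z => B x * (u N i y * RR N θ c lam x y z))).trans ?_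
    refine sum_congr rfl fun x _ => sum_congr rfl fun y _ => ?_
    have h3 := RR_sum (N := N) (θ := θ) (c := c) (lam := lam) x y
    calc _ = (B x * u N i y) * (RR N θ c lam x y 0 + RR N θ c lam x y 1) := by ring
      _ = _ := by rw [h3]; unfold mu; ring
  rw [h2]
  simp_rw [← mul_sum]
  rw [← sum_mul, g_inner N 0 i hi, ← mul_sum]
  have h5 : (2 : ℝ) ^ (L + N + 1) = 2 ^ L * 2 ^ N * 2 := by rw [pow_succ, pow_add]
  rw [h5]
  field_simp

lemma abs_RR_le {x y z : ℕ} (h : |mu N θ c lam x y| ≤ 1 / 2) : |RR N θ c lam x y z| ≤ 2 := by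
  have h1 : Real.sqrt (1 - mu N θ c lam x y ^ 2) ≤ 1 := by
    rw [Real.sqrt_le_one]; nlinarith [sq_nonneg (mu N θ c lam x y)]
  have h0 := Real.sqrt_nonneg (1 - mu N θ c lam x y ^ 2)
  have h2 := abs_le.1 h
  unfold RR
  rw [abs_le]
  split_ifs <;> constructor <;> linarith [h2.1, h2.2]

lemma abs_RR_ge {x y z : ℕ} (h : |mu N θ c lam x y| ≤ 1 / 2) : 1 / 3 ≤ |RR N θ c lam x y z| := by
  have h1 : 5 / 6 ≤ Real.sqrt (1 - mu N θ c lam x y ^ 2) := by
    apply Real.le_sqrt_of_sq_le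
    have : mu N θ c lam x y ^ 2 ≤ (1 / 2) ^ 2 := by
      rw [← sq_abs]; exact pow_le_pow_left₀ (abs_nonneg _) h 2
    norm_num at this ⊢
    linarith
  have h2 := abs_le.1 h
  unfold RR
  split_ifs
  · refine le_trans ?_ (le_abs_self _)
    linarith [h2.1]
  · refine le_trans ?_ (neg_le_abs _)
    linarith [h2.2]

lemma ps_bound (hmu : ∀ x, x < 2 ^ L → ∀ y, |mu N θ c lam x y| ≤ 1 / 2) (i : ℕ) {t : ℝ} (ht : t < 1) :
    |ps L N θ c lam i t| ≤ 2 ^ N * 2 := by
  unfold ps st psN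
  rw [abs_mul]
  have hfl := floor_lt (n := L + N + 1) ht
  have hx : ⌊(2 : ℝ) ^ (L + N + 1) * t⌋₊ / 2 / 2 ^ N < 2 ^ L := by
    rw [Nat.div_div_eq_div_mul, Nat.div_lt_iff_lt_mul (by positivity)]
    calc _ < 2 ^ (L + N + 1) := hfl
      _ = _ := by rw [pow_succ, pow_add]; ring
  exact mul_le_mul (u_bound _ _ _) (abs_RR_le (hmu _ hx _)) (abs_nonneg _) (by positivity)

/-- good points -/
def good (L N : ℕ) (c lam : ℝ) (t : ℝ) : Prop := un c lam N 0 (⌊(2 : ℝ) ^ (L + N + 1) * t⌋₊ / 2 % 2 ^ N)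

/-- at good points some partial sum is large -/
lemma ps_peak (hc : 0 ≤ c) (hcN : c * N = 1) (hlam : lam + c ≤ 1 / 2) (hlam0 : 0 ≤ lam)
    (hmu : ∀ x, x < 2 ^ L → ∀ y, |mu N θ c lam x y| ≤ 1 / 2) {t : ℝ} (ht : t < 1)
    (hg : good L N c lam t) :
    ∃ m ≤ d N, 1 / 12 ≤ |∑ i ∈ range m, g c lam N 0 i * ps L N θ c lam i t| := by
  have hfl := floor_lt (n := L + N + 1) ht
  set k := ⌊(2 : ℝ) ^ (L + N + 1) * t⌋₊ with hk
  have hx : k / 2 / 2 ^ N < 2 ^ L := by
    rw [Nat.div_div_eq_div_mul, Nat.div_lt_iff_lt_mul (by positivity)]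
    calc _ < 2 ^ (L + N + 1) := hfl
      _ = _ := by rw [pow_succ, pow_add]; ring
  have hy : k / 2 % 2 ^ N < 2 ^ N := Nat.mod_lt _ (by positivity)
  obtain ⟨m, hm, hs⟩ := peak_sum (c := c) (lam := lam) N 0 _ hy
  refine ⟨m, hm, ?_⟩
  have h1 : ∑ i ∈ range m, g c lam N 0 i * ps L N θ c lam i t =
      (∑ i ∈ range m, g c lam N 0 i * u N i (k / 2 % 2 ^ N)) *
        RR N θ c lam (k / 2 / 2 ^ N) (k / 2 % 2 ^ N) (k % 2) := by
    rw [sum_mul]
    refine sum_congr rfl fun i _ => ?_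
    unfold ps st psN
    rw [← hk]; ring
  rw [h1, hs, abs_mul]
  have h2 := abs_RR_ge (z := k % 2) (hmu _ hx (k / 2 % 2 ^ N))
  have h3 := un_peak N 0 _ hg
  have h4 := walk_bound (lam := lam) hc N 0 (k / 2 % 2 ^ N) (by rw [abs_zero]; linarith)
  rw [zero_add] at h4
  have h5 : 1 / 4 ≤ |pk c lam N 0 (k / 2 % 2 ^ N)| := by
    rw [h3, hcN]
    have := (abs_le.1 h4).1
    refine le_trans ?_ (le_abs_self _)
    linarith
  nlinarith [abs_nonneg (pk c lam N 0 (k / 2 % 2 ^ N)), abs_nonneg (RR N θ c lam (k / 2 / 2 ^ N) (k / 2 % 2 ^ N) (k % 2))]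

lemma good_meas (L N : ℕ) (c lam : ℝ) : MeasurableSet {t : ℝ | good L N c lam t} := by
  have h1 : Measurable fun t : ℝ => ⌊(2 : ℝ) ^ (L + N + 1) * t⌋₊ :=
    Nat.measurable_floor.comp (measurable_const_mul _)
  exact h1 (MeasurableSet.of_discrete (s := {k : ℕ | un c lam N 0 (k / 2 % 2 ^ N)}))

open Classical in
/-- the set of bad points is small -/
lemma bad_small (hlam : 0 < lam) :
    volume (Set.Icc (0 : ℝ) 1 ∩ {t : ℝ | ¬ good L N c lam t}) ≤ ENNReal.ofReal (c ^ 2 * N / lam ^ 2) := by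
  set F : ℕ → ℝ := fun k => if un c lam N 0 (k / 2 % 2 ^ N) then 0 else 1 with hF
  have h1 : ∫ t in Set.Icc (0 : ℝ) 1, st (L + N + 1) F t ≤ c ^ 2 * N / lam ^ 2 := by
    rw [int_st]
    have h2 : ∑ k ∈ range (2 ^ (L + N + 1)), F k =
        ∑ x ∈ range (2 ^ L), ∑ y ∈ range (2 ^ N), 2 * (if un c lam N 0 y then (0 : ℝ) else 1) := by
      refine (sum_triple L N (fun x y z => if un c lam N 0 y then (0 : ℝ) else 1)).trans ?_
      refine sum_congr rfl fun x _ => sum_congr rfl fun y _ => ?_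
      ring
    have h3 : ∑ y ∈ range (2 ^ N), 2 * (if un c lam N 0 y then (0 : ℝ) else 1) =
        2 * (((range (2 ^ N)).filter fun y => ¬ un c lam N 0 y).card : ℝ) := by
      rw [← mul_sum]
      congr 1
      rw [card_filter]
      push_cast
      refine sum_congr rfl fun y _ => ?_
      by_cases h : un c lam N 0 y <;> simp [h]
    rw [h2, h3, sum_const, card_range, nsmul_eq_mul]
    have h4 := stopped_card (c := c) hlam N
    have h5 : (2 : ℝ) ^ (L + N + 1) = 2 ^ L * 2 ^ N * 2 := by rw [pow_succ, pow_add]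
    rw [h5, div_le_div_iff₀ (by positivity) (by positivity)]
    push_cast
    have h6 : (0 : ℝ) < 2 ^ L := by positivity
    nlinarith [mul_le_mul_of_nonneg_left h4 h6.le]
  have h7 : ∫ t in Set.Icc (0 : ℝ) 1, st (L + N + 1) F t =
      (volume : Measure ℝ).real (Set.Icc (0 : ℝ) 1 ∩ {t : ℝ | ¬ good L N c lam t}) := by
    have h8 : ∀ t, st (L + N + 1) F t = Set.indicator {t : ℝ | ¬ good L N c lam t} (fun _ => (1 : ℝ)) t := by
      intro t
      by_cases h : good L N c lam t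
      · rw [Set.indicator_of_notMem (by simpa using h)]
        unfold st good at *
        simp only [hF, h, if_true]
      · rw [Set.indicator_of_mem (by simpa using h)]
        unfold st good at *
        simp only [hF, h, if_false]
    simp_rw [h8]
    have hbm : MeasurableSet {t : ℝ | ¬ good L N c lam t} := (good_meas L N c lam).compl
    rw [setIntegral_indicator hbm, setIntegral_const, smul_eq_mul, mul_one]
  rw [h7] at h1
  have hfin : volume (Set.Icc (0 : ℝ) 1 ∩ {t : ℝ | ¬ good L N c lam t}) ≠ ⊤ :=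
    ne_top_of_le_ne_top (b := volume (Set.Icc (0 : ℝ) 1)) (by simp) (measure_mono Set.inter_subset_left)
  rw [← ofReal_measureReal hfin]
  exact ENNReal.ofReal_le_ofReal h1

end block

end Pool.Agent.H7.Div
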